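import Pool.Agent.H96.R1.Prs

/-!
# Arrays bounded on the unit cube
-/

set_option autoImplicit false

namespace Pool.JS

open Finset Real
open Pool.JMN (ev shf tdg)

variable {k K : ℕ}

/-- The array with a factor. -/
def smu (t : ℝ) (q : (Fin k → Fin (K + 1)) → ℝ) (α : Fin k → Fin (K + 1)) : ℝ := t * q α

theorem ev_smu (t : ℝ) (q : (Fin k → Fin (K + 1)) → ℝ) (x : Fin k → ℝ) :
    ev (smu t q) x = t * ev q x := by
  unfold Pool.JMN.ev smu
  rw [Finset.mul_sum]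
  exact Finset.sum_congr rfl fun a _ => by ring

theorem ev_zero_pt (q : (Fin k → Fin (K + 1)) → ℝ) :
    ev q (fun _ => 0) = q fun _ => 0 := by
  classical
  unfold Pool.JMN.ev
  rw [Finset.sum_eq_single (fun _ => (0 : Fin (K + 1)))]
  · simp
  · intro b _ hb
    obtain ⟨i, hi⟩ : ∃ i, b i ≠ 0 := by
      by_contra hcon
      push Not at hcon
      exact hb (funext hcon)
    rw [Finset.prod_eq_zero (Finset.mem_univ i), mul_zero]
    rw [zero_pow]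
    intro h
    exact hi (Fin.ext (by simpa using h))
  · intro h
    exact absurd (Finset.mem_univ _) h

/-- The variation near `0`. -/
theorem ev_var {q : (Fin k → Fin (K + 1)) → ℝ} {m ε : ℝ} (hm : 0 ≤ m) (hε : 0 ≤ ε)
    (hq : ∀ a, |q a| ≤ m) {x : Fin k → ℝ} (hx : ∀ i, |x i| ≤ 4) (hxε : ∀ i, |x i| ≤ ε) :
    |ev q x - ev q (fun _ => 0)| ≤ ((K : ℝ) + 1) ^ k * (m * (4 ^ (k * K) * ε)) := by
  classical
  have h1 : ev q x - ev q (fun _ => 0) = ∑ a : Fin k → Fin (K + 1),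
      q a * (∏ i, x i ^ (a i : ℕ) - ∏ i : Fin k, (0 : ℝ) ^ (a i : ℕ)) := by
    unfold Pool.JMN.ev
    rw [← Finset.sum_sub_distrib]
    exact Finset.sum_congr rfl fun a _ => by ring
  rw [h1]
  refine (Finset.abs_sum_le_sum_abs _ _).trans ?_
  have h2 : ∀ a : Fin k → Fin (K + 1), |q a * (∏ i, x i ^ (a i : ℕ) -
      ∏ i : Fin k, (0 : ℝ) ^ (a i : ℕ))| ≤ m * (4 ^ (k * K) * ε) := by
    intro a
    rw [abs_mul]
    refine mul_le_mul (hq a) ?_ (abs_nonneg _) hm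
    by_cases ha : ∃ i, a i ≠ 0
    · obtain ⟨i, hi⟩ := ha
      have hi' : (a i : ℕ) ≠ 0 := fun h => hi (Fin.ext (by simpa using h))
      have e1 : ∏ i : Fin k, (0 : ℝ) ^ (a i : ℕ) = 0 :=
        Finset.prod_eq_zero (Finset.mem_univ i) (zero_pow hi')
      rw [e1, sub_zero, Finset.abs_prod, ← Finset.mul_prod_erase Finset.univ _ (Finset.mem_univ i)]
      have e2 : |x i ^ (a i : ℕ)| ≤ 4 ^ ((a i : ℕ) - 1) * ε := by
        obtain ⟨n, hn⟩ : ∃ n, (a i : ℕ) = n + 1 := ⟨(a i : ℕ) - 1, by omega⟩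
        rw [hn, Nat.add_sub_cancel, abs_pow, pow_succ]
        exact mul_le_mul (pow_le_pow_left₀ (abs_nonneg _) (hx i) n) (hxε i) (abs_nonneg _)
          (by positivity)
      have e3 : ∏ j ∈ Finset.univ.erase i, |x j ^ (a j : ℕ)| ≤
          4 ^ (∑ j ∈ Finset.univ.erase i, (a j : ℕ)) := by
        rw [← Finset.prod_pow_eq_pow_sum]
        refine Finset.prod_le_prod (fun j _ => abs_nonneg _) fun j _ => ?_
        rw [abs_pow]
        exact pow_le_pow_left₀ (abs_nonneg _) (hx j) _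
      have e4 : (a i : ℕ) - 1 + ∑ j ∈ Finset.univ.erase i, (a j : ℕ) ≤ k * K := by
        have e5 := Finset.add_sum_erase Finset.univ (fun j => (a j : ℕ)) (Finset.mem_univ i)
        have e6 := Pool.JMN.tdg_le a
        unfold Pool.JMN.tdg at e6
        omega
      calc |x i ^ (a i : ℕ)| * ∏ j ∈ Finset.univ.erase i, |x j ^ (a j : ℕ)|
          ≤ (4 ^ ((a i : ℕ) - 1) * ε) * 4 ^ (∑ j ∈ Finset.univ.erase i, (a j : ℕ)) :=
            mul_le_mul e2 e3 (Finset.prod_nonneg fun j _ => abs_nonneg _) (by positivity)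
        _ = 4 ^ ((a i : ℕ) - 1 + ∑ j ∈ Finset.univ.erase i, (a j : ℕ)) * ε := by
            rw [pow_add]; ring
        _ ≤ 4 ^ (k * K) * ε :=
            mul_le_mul_of_nonneg_right (pow_le_pow_right₀ (by norm_num) e4) hε
    · push Not at ha
      have e1 : ∏ i, x i ^ (a i : ℕ) = 1 := Finset.prod_eq_one fun i _ => by rw [ha i]; simp
      have e2 : ∏ i : Fin k, (0 : ℝ) ^ (a i : ℕ) = 1 :=
        Finset.prod_eq_one fun i _ => by rw [ha i]; simp
      rw [e1, e2, sub_self, abs_zero]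
      positivity
  refine (Finset.sum_le_sum fun a _ => h2 a).trans (le_of_eq ?_)
  rw [Finset.sum_const, Finset.card_univ, Fintype.card_fun, Fintype.card_fin, Fintype.card_fin,
    nsmul_eq_mul]
  push_cast
  ring

/-- **Arrays bounded on the unit cube.** -/
theorem bdd (k K : ℕ) : ∃ C₀ : ℕ, ∀ (q : (Fin k → Fin (K + 1)) → ℝ) (m : ℝ), 0 ≤ m →
    (∀ x : Fin k → ℝ, (∀ i, 0 ≤ x i ∧ x i ≤ 1) → |ev q x| ≤ m) →
    (∀ a, |q a| ≤ 2 ^ C₀ * m) ∧
    (∀ x : Fin k → ℝ, (∀ i, |x i| ≤ 3) → |ev q x| ≤ 2 ^ C₀ * m) ∧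
    (∀ z : Fin k → ℝ, (∀ i, |z i| ≤ 2) → ∀ a, |shf z q a| ≤ 2 ^ C₀ * m) ∧
    ∀ (x x' : Fin k → ℝ) (ε : ℝ), 0 ≤ ε → (∀ i, |x i| ≤ 2) → (∀ i, |x' i| ≤ 2) →
      (∀ i, |x i - x' i| ≤ ε) → |ev q x - ev q x'| ≤ 2 ^ C₀ * m * ε := by
  obtain ⟨C, hC1, hC⟩ := Pool.JMN.coef_le k K
  obtain ⟨M₁, hM₁⟩ : ∃ M₁ : ℝ, M₁ = ((K : ℝ) + 1) ^ k * (C * 3 ^ (k * K)) := ⟨_, rfl⟩
  obtain ⟨M₂, hM₂⟩ : ∃ M₂ : ℝ, M₂ = ((K : ℝ) + 1) ^ k * (C * M₁ * 4 ^ (k * K)) := ⟨_, rfl⟩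
  obtain ⟨C₀, hC₀⟩ : ∃ n : ℕ, C + M₁ + C * M₁ + M₂ ≤ 2 ^ n := by
    obtain ⟨n, hn⟩ := pow_unbounded_of_one_lt (C + M₁ + C * M₁ + M₂) (by norm_num : (1 : ℝ) < 2)
    exact ⟨n, hn.le⟩
  have hM₁0 : 0 ≤ M₁ := by rw [hM₁]; positivity
  have hM₂0 : 0 ≤ M₂ := by rw [hM₂]; positivity
  have hCM : 0 ≤ C * M₁ := by positivity
  refine ⟨C₀, fun q m hm hq => ?_⟩
  have h1 : ∀ a, |q a| ≤ C * m := by
    intro a
    have := hC q 1 m one_pos hq a
    rwa [one_pow, mul_one] at this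
  have h2 : ∀ x : Fin k → ℝ, (∀ i, |x i| ≤ 3) → |ev q x| ≤ M₁ * m := by
    intro x hx
    have := Pool.JMN.ev_le (q := q) (ρ := 3) (m := C * m * 3 ^ (k * K)) (fun a =>
      mul_le_mul (h1 a) (pow_le_pow_right₀ (by norm_num) (Pool.JMN.tdg_le a)) (by positivity)
        (by positivity)) hx
    rw [hM₁]
    linarith
  have h3 : ∀ z : Fin k → ℝ, (∀ i, |z i| ≤ 2) → ∀ a, |shf z q a| ≤ C * M₁ * m := by
    intro z hz a
    have := hC (shf z q) 1 (M₁ * m) one_pos (fun x hx => by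
      rw [Pool.JMN.ev_shf]
      refine h2 _ fun i => ?_
      refine (abs_add_le _ _).trans ?_
      have e1 := hz i
      have e2 := hx i
      rw [abs_of_nonneg e2.1]
      linarith) a
    rw [one_pow, mul_one] at this
    linarith
  have h4 : ∀ (x x' : Fin k → ℝ) (ε : ℝ), 0 ≤ ε → (∀ i, |x i| ≤ 2) → (∀ i, |x' i| ≤ 2) →
      (∀ i, |x i - x' i| ≤ ε) → |ev q x - ev q x'| ≤ M₂ * m * ε := by
    intro x x' ε hε hx hx' hxx
    have e1 : ev q x = ev (shf x' q) fun i => x i - x' i := by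
      rw [Pool.JMN.ev_shf]
      congr 1
      funext i
      ring
    have e2 : ev q x' = ev (shf x' q) fun _ => 0 := by
      rw [Pool.JMN.ev_shf]
      congr 1
      funext i
      ring
    rw [e1, e2]
    have := ev_var (q := shf x' q) (m := C * M₁ * m) (ε := ε) (by positivity) hε (h3 x' hx')
      (x := fun i => x i - x' i) (fun i => by
        refine (abs_sub _ _).trans ?_
        linarith [hx i, hx' i]) hxx
    refine this.trans (le_of_eq ?_)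
    rw [hM₂]
    ring
  have k1 : C * m ≤ 2 ^ C₀ * m := mul_le_mul_of_nonneg_right (by linarith) hm
  have k2 : M₁ * m ≤ 2 ^ C₀ * m := mul_le_mul_of_nonneg_right (by linarith) hm
  have k3 : C * M₁ * m ≤ 2 ^ C₀ * m := mul_le_mul_of_nonneg_right (by linarith) hm
  have k4 : M₂ * m ≤ 2 ^ C₀ * m := mul_le_mul_of_nonneg_right (by linarith) hm
  refine ⟨fun a => (h1 a).trans k1, fun x hx => (h2 x hx).trans k2, fun z hz a =>
    (h3 z hz a).trans k3, fun x x' ε hε hx hx' hxx => (h4 x x' ε hε hx hx' hxx).trans ?_⟩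
  exact mul_le_mul_of_nonneg_right k4 hε

end Pool.JS
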