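import Pool.Agent.H51.R2.Cnd
import Pool.Agent.H51.R2.Pol

/-!
# The rows between two labels, in the mean over the profiles

`avg`: two labels `a`, `b` whose difference is large somewhere in the unit cube and zero at the
point; the point is full given each label. Then the rows of the height `N` are full given the
point. No exhausted coordinates, no popular profile: the defects enter linearly.
-/

set_option autoImplicit false

namespace Pool.JS

open Finset Real
open Pool.Agent.H49.Ent Pool.Agent.H32.Dense Pool.STK Pool.BFL Pool.MIC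
open Pool.JMN (ev shf tdg)
open Pool.R1 (Rows cv)
open Pool.JMP (InC)
open Pool.XBG (cel crn)

variable {Ω α β τ δ : Type} {k : ℕ}

/-- **Doubling** of a function near the point `y`, with the exponent `r`. -/
def Dbl (r h : ℕ) (E : Fin k → ℕ) (y : Fin k → ℝ) (f : (Fin k → ℝ) → ℝ) : Prop :=
  ∀ (t : ℕ) (m : ℝ) (c : Fin k → ℝ), (∀ l, 0 ≤ c l ∧ c l ≤ 1) →
    (∀ l, |c l - y l| ≤ 1 / 2 ^ t + 1 / 2 ^ E l) →
    (∀ x : Fin k → ℝ, (∀ l, |x l - c l| ≤ 1 / 2 ^ t) → |f x| ≤ m) →
    ∀ x : Fin k → ℝ, (∀ l, 0 ≤ x l ∧ x l ≤ 1) → |f x| ≤ 2 ^ (r * t + h) * m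

theorem dig_zero [Fintype Ω] {y : Ω → Fin k → ℝ} (y0 : ∀ ω i, 0 ≤ y ω i) (y1 : ∀ ω i, y ω i < 1)
    (ω : Ω) : dig y (fun _ => 0) ω = fun _ => 0 := by
  funext l
  unfold dig
  rw [pow_zero, one_mul, Int.floor_eq_iff]
  push_cast
  exact ⟨y0 ω l, by linarith only [y1, y1 ω l]⟩

theorem cv_eq_dig (X : ℕ) (y : Ω → Fin k → ℝ) (d : Fin k → ℕ) :
    cv X y d = dig y fun l => d l * X := rfl

/-- The rows of a multiple. -/
theorem fl_scale (σ n : ℕ) (x : ℝ) : ⌊(2 : ℝ) ^ (n + σ) * (x / 2 ^ σ)⌋ = ⌊(2 : ℝ) ^ n * x⌋ := by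
  congr 1
  rw [pow_add]
  have : (2 : ℝ) ^ σ ≠ 0 := by positivity
  field_simp

theorem avg (k r : ℕ) : ∃ C₁ : ℕ, ∀ K ρ : ℕ, ∃ C₂ : ℕ,
    ∀ {Ω α β τ δ : Type} [Fintype Ω] {p : Ω → ℝ} {E : Fin k → ℕ} {V : Ω → τ} {D : Ω → δ}
    {y : Ω → Fin k → ℝ} {h : ℕ} {Lf : ℝ}, Wd p E V D y h Lf →
    ∀ (X R P₀ P₁ lo hi : ℕ) (A : Ω → α) (B : Ω → β) (N : Ω → ℝ)
    (a b : Ω → (Fin k → Fin (K + 1)) → ℝ) (th : ℝ),
    C₂ * (1 + h) ≤ X → R + P₁ ≤ ρ * X → P₀ + C₁ * X ≤ lo → lo ≤ hi →
    hi + C₁ * X ≤ P₁ →
    Det p (fun ω => (A ω, V ω)) a → Det p (fun ω => (B ω, V ω)) b →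
    (∀ ω, 0 < p ω → ∀ x : Fin k → ℝ, (∀ l, 0 ≤ x l ∧ x l ≤ 1) →
      |ev (a ω) x| ≤ 2 ^ R ∧ |ev (b ω) x| ≤ 2 ^ R) →
    (∀ ω, 0 < p ω → ∃ x : Fin k → ℝ, (∀ l, 0 ≤ x l ∧ x l ≤ 1) ∧
      1 / 2 ^ P₀ ≤ |ev (a ω) x - ev (b ω) x|) →
    (∀ ω, 0 < p ω → Dbl r h E (y ω) fun x => ev (a ω) x - ev (b ω) x) →
    (∀ ω, 0 < p ω → ∀ x : Fin k → ℝ, (∀ l, |x l - y ω l| ≤ 1 / 2 ^ E l) →
      |N ω - ev (a ω) x| ≤ 1 / 2 ^ P₁ ∧ |N ω - ev (b ω) x| ≤ 1 / 2 ^ P₁) →
    Lf - th ≤ CH p D (fun ω => (A ω, V ω)) → Lf - th ≤ CH p D (fun ω => (B ω, V ω)) →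
    ((hi : ℝ) - lo) * Real.log 2 ≤
      CH p (fun ω => ⌊(2 : ℝ) ^ hi * N ω⌋) (fun ω => (⌊(2 : ℝ) ^ lo * N ω⌋, (D ω, V ω))) +
        C₁ * ((((hi : ℝ) - lo) / X + 2) * th + X) := by
  classical
  obtain ⟨Cc, hCc, hcore⟩ := Pool.R1.core k r
  obtain ⟨U, hU⟩ : ∃ U : ℕ, Cc ≤ U := ⟨⌈Cc⌉₊, Nat.le_ceil Cc⟩
  refine ⟨2 * U + 2 * r + 10, fun K ρ => ?_⟩
  obtain ⟨c, Cd, hCd, hcore⟩ := hcore K
  obtain ⟨C₀, hC₀⟩ := bdd k K
  obtain ⟨U₂, hU₂⟩ : ∃ U₂ : ℕ, Cd ≤ U₂ := ⟨⌈Cd⌉₊, Nat.le_ceil Cd⟩
  obtain ⟨H₀, hH₀⟩ : ∃ H₀ : ℕ, H₀ = U₂ * 2 * (ρ + 3) + 8 := ⟨_, rfl⟩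
  obtain ⟨P, hP⟩ : ∃ P : ℕ, P = H₀ * (k * K * (2 * ρ + 6) + 2 * ρ + 8) + 1 := ⟨_, rfl⟩
  obtain ⟨bb, hbb⟩ : ∃ bb : ℝ, bb = ((P : ℝ) + 1) ^ (k * K + 1) := ⟨_, rfl⟩
  have hbb1 : 1 ≤ bb := by
    rw [hbb]
    exact one_le_pow₀ (by linarith only [Nat.cast_nonneg (α := ℝ) P])
  obtain ⟨n, hn⟩ : ∃ n : ℕ, (1 - 1 / bb) ^ n < 1 / ((ρ : ℝ) + 1) := by
    refine exists_pow_lt_of_lt_one (by positivity) ?_
    have : 0 < 1 / bb := by positivity
    linarith only [this]
  obtain ⟨C₂, hC₂⟩ : ∃ C₂ : ℕ, C₂ = H₀ * (c + C₀ + 4) + 4 * (r + 2 * c + 8) +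
      U * (ρ + 3) * 4 * (n + 2) + 8 * (C₀ + 8) + (2 * r + 10) * (ρ + 3) := ⟨_, rfl⟩
  refine ⟨C₂, ?_⟩
  intro Ω α β τ δ _ p E V D y h Lf hW X R P₀ P₁ lo hi A B N a b th hX hR hlo hlh hhi
    hda hdb hbd hfar hdbl hfit hfa hfb
  have hp := hW.law
  have h0 := hp.nonneg
  have hl2 : 0 < Real.log 2 := Real.log_pos (by norm_num)
  have hl21 : Real.log 2 ≤ 1 := by
    have := Real.log_two_lt_d9
    linarith only [hl2, this]
  -- sizes
  have x1 : H₀ * (h + c + C₀ + 4) ≤ X := by
    have e1 : H₀ * (h + c + C₀ + 4) ≤ H₀ * (c + C₀ + 4) * (1 + h) := by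
      rw [mul_assoc]
      refine Nat.mul_le_mul_left _ ?_
      nlinarith only
    have e2 : H₀ * (c + C₀ + 4) ≤ C₂ := by rw [hC₂]; omega
    exact e1.trans ((Nat.mul_le_mul_right _ e2).trans hX)
  exact by
   have x2 : 4 * (r + 2 * c + 8 + h) ≤ X := by
     have e1 : 4 * (r + 2 * c + 8 + h) ≤ 4 * (r + 2 * c + 8) * (1 + h) := by nlinarith only
     have e2 : 4 * (r + 2 * c + 8) ≤ C₂ := by rw [hC₂]; omega
     exact e1.trans ((Nat.mul_le_mul_right _ e2).trans hX)
   have x3 : U * (ρ + 3) * 4 * (n + h + 2) ≤ X := by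
     have e1 : U * (ρ + 3) * 4 * (n + h + 2) ≤ U * (ρ + 3) * 4 * (n + 2) * (1 + h) := by
       rw [mul_assoc _ (n + 2)]
       refine Nat.mul_le_mul_left _ ?_
       nlinarith only
     have e2 : U * (ρ + 3) * 4 * (n + 2) ≤ C₂ := by rw [hC₂]; omega
     exact e1.trans ((Nat.mul_le_mul_right _ e2).trans hX)
   have x4 : 8 * (C₀ + 8) ≤ X := by
     have e1 : 8 * (C₀ + 8) ≤ 8 * (C₀ + 8) * (1 + h) := Nat.le_mul_of_pos_right _ (by omega)
     have e2 : 8 * (C₀ + 8) ≤ C₂ := by rw [hC₂]; omega
     exact e1.trans ((Nat.mul_le_mul_right _ e2).trans hX)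
   have x5 : (2 * r + 10) * (ρ + 3) * (1 + h) ≤ X := by
     have e2 : (2 * r + 10) * (ρ + 3) ≤ C₂ := by rw [hC₂]; omega
     exact (Nat.mul_le_mul_right _ e2).trans hX
   have hX1 : 1 ≤ X := by omega
   have hXr : (0 : ℝ) < X := by exact_mod_cast hX1
   -- the mesh of the profile
   obtain ⟨q₀, hq₀⟩ : ∃ q₀ : ℕ, q₀ = X / H₀ := ⟨_, rfl⟩
   obtain ⟨H, hH⟩ : ∃ H : ℕ, H = q₀ + (h + c + C₀ + 1) := ⟨_, rfl⟩
   have hH₀8 : 8 ≤ H₀ := by rw [hH₀]; omega
   have hHh : h ≤ H := by omega
   have hH1 : 1 ≤ H := by omega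
   have hq1 : h + c + C₀ + 4 ≤ q₀ := by
     rw [hq₀, Nat.le_div_iff_mul_le (by omega), mul_comm]
     exact x1
   have hHX : (1 + H) * H₀ ≤ 2 * X := by
     have e1 : q₀ * H₀ ≤ X := by rw [hq₀]; exact Nat.div_mul_le_self X H₀
     have e2 : 1 + H ≤ 2 * q₀ := by omega
     calc (1 + H) * H₀ ≤ 2 * q₀ * H₀ := Nat.mul_le_mul_right _ e2
       _ = 2 * (q₀ * H₀) := by ring
       _ ≤ 2 * X := Nat.mul_le_mul_left _ e1
   exact by
    have hXH : X < H * H₀ := by
      have e1 := Nat.lt_mul_div_succ X (show 0 < H₀ by omega)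
      rw [← hq₀] at e1
      have e2 : q₀ + 1 ≤ H := by omega
      calc X < H₀ * (q₀ + 1) := e1
        _ ≤ H₀ * H := Nat.mul_le_mul_left _ e2
        _ = H * H₀ := by ring
    have hH4 : 4 * (1 + H) ≤ X := by
      have e1 : (1 + H) * 8 ≤ 2 * X := (Nat.mul_le_mul_left _ hH₀8).trans hHX
      omega
    -- the scale of the heights, the number of blocks
    obtain ⟨σ, hσ⟩ : ∃ σ : ℕ, σ = R + C₀ + 2 := ⟨_, rfl⟩
    obtain ⟨S, hS⟩ : ∃ S : ℕ, S = (P₁ + σ) / X + 1 := ⟨_, rfl⟩
    have hS1 : P₁ + σ ≤ S * X := by
      have := Nat.lt_mul_div_succ (P₁ + σ) (show 0 < X by omega)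
      rw [hS]
      calc P₁ + σ ≤ X * ((P₁ + σ) / X + 1) := this.le
        _ = ((P₁ + σ) / X + 1) * X := by ring
    have hS2 : S * X ≤ P₁ + σ + X := by
      have := Nat.div_mul_le_self (P₁ + σ) X
      rw [hS, add_mul, one_mul]
      omega
    have hS0 : 1 ≤ S := by
      rw [hS]
      exact Nat.le_add_left _ _
    obtain ⟨M, hM⟩ : ∃ M : ℕ, M = S * X := ⟨_, rfl⟩
    -- the extended world
    obtain ⟨p', hp'⟩ : ∃ p' : Ω × (Fin k → Fin (2 ^ M)) → ℝ, p' = pu p k M := ⟨_, rfl⟩
    obtain ⟨y', hy'⟩ : ∃ y' : Ω × (Fin k → Fin (2 ^ M)) → Fin k → ℝ, y' = uy E M y := ⟨_, rfl⟩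
    obtain ⟨D', hD'⟩ : ∃ D' : Ω × (Fin k → Fin (2 ^ M)) → δ × (Fin k → Fin (2 ^ M)),
      D' = fun e => (D e.1, e.2) := ⟨_, rfl⟩
    exact by
     obtain ⟨a', ha'⟩ : ∃ a' : Ω × (Fin k → Fin (2 ^ M)) → (Fin k → Fin (K + 1)) → ℝ,
       a' = fun e => smu (1 / 2 ^ σ) (a e.1) := ⟨_, rfl⟩
     obtain ⟨b', hb'⟩ : ∃ b' : Ω × (Fin k → Fin (2 ^ M)) → (Fin k → Fin (K + 1)) → ℝ,
       b' = fun e => smu (1 / 2 ^ σ) (b e.1) := ⟨_, rfl⟩
     obtain ⟨N', hN'⟩ : ∃ N' : Ω × (Fin k → Fin (2 ^ M)) → ℝ, N' = fun e => N e.1 / 2 ^ σ := ⟨_, rfl⟩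
     have hpl : IsLaw p' := by rw [hp']; exact pu_law hp k M
     have hpp : ∀ e, 0 < p' e → 0 < p e.1 := fun e he => by
       rw [hp'] at he
       exact pu_pos hp he
     have y0' : ∀ e i, 0 ≤ y' e i := fun e i => by rw [hy']; exact uy_nonneg hW.y0 e i
     have y1' : ∀ e i, y' e i < 1 := fun e i => by rw [hy']; exact uy_lt hW.y1 e i
     have hσ0 : (0 : ℝ) < 2 ^ σ := by positivity
     have hyd : ∀ e l, |y' e l - y e.1 l| ≤ 1 / 2 ^ E l := fun e l => by rw [hy']; exact uy_near e l
     -- values
     have hva : ∀ e x, ev (a' e) x = ev (a e.1) x / 2 ^ σ := fun e x => by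
       rw [ha']
       show ev (smu (1 / 2 ^ σ) (a e.1)) x = _
       rw [ev_smu]
       ring
     have hvb : ∀ e x, ev (b' e) x = ev (b e.1) x / 2 ^ σ := fun e x => by
       rw [hb']
       show ev (smu (1 / 2 ^ σ) (b e.1)) x = _
       rw [ev_smu]
       ring
     have hvd : ∀ e x, ev (fun α => a' e α - b' e α) x = (ev (a e.1) x - ev (b e.1) x) / 2 ^ σ :=
       fun e x => by
       rw [Pool.JMN.ev_sub, hva, hvb]
       ring
     -- bounds of the labels
     have hba : ∀ ω, 0 < p ω → (∀ x : Fin k → ℝ, (∀ i, |x i| ≤ 3) → |ev (a ω) x| ≤ 2 ^ C₀ * 2 ^ R) ∧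
         ∀ (x x' : Fin k → ℝ) (ε : ℝ), 0 ≤ ε → (∀ i, |x i| ≤ 2) → (∀ i, |x' i| ≤ 2) →
         (∀ i, |x i - x' i| ≤ ε) → |ev (a ω) x - ev (a ω) x'| ≤ 2 ^ C₀ * 2 ^ R * ε := fun ω hω => by
       have := hC₀ (a ω) (2 ^ R) (by positivity) fun x hx => (hbd ω hω x hx).1
       exact ⟨this.2.1, this.2.2.2⟩
     exact by
      have hbb' : ∀ ω, 0 < p ω → (∀ x : Fin k → ℝ, (∀ i, |x i| ≤ 3) → |ev (b ω) x| ≤ 2 ^ C₀ * 2 ^ R) ∧
          ∀ (x x' : Fin k → ℝ) (ε : ℝ), 0 ≤ ε → (∀ i, |x i| ≤ 2) → (∀ i, |x' i| ≤ 2) →
          (∀ i, |x i - x' i| ≤ ε) → |ev (b ω) x - ev (b ω) x'| ≤ 2 ^ C₀ * 2 ^ R * ε := fun ω hω => by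
        have := hC₀ (b ω) (2 ^ R) (by positivity) fun x hx => (hbd ω hω x hx).2
        exact ⟨this.2.1, this.2.2.2⟩
      have hlip : ∀ e, 0 < p' e → ∀ z z' : Fin k → ℝ, (∀ l, |z l| ≤ 2) → (∀ l, |z' l| ≤ 2) →
          (∀ l, |z l - z' l| ≤ 2 / 2 ^ (S * X)) →
          |ev (a' e) z - ev (a' e) z'| ≤ 1 / 2 ^ (S * X) ∧
          |ev (b' e) z - ev (b' e) z'| ≤ 1 / 2 ^ (S * X) := by
        intro e he z z' hz hz' hzz
        have g1 : (2 : ℝ) ^ C₀ * 2 ^ R * (2 / 2 ^ (S * X)) / 2 ^ σ ≤ 1 / 2 ^ (S * X) := by
          rw [hσ, pow_add, pow_add]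
          have : (0 : ℝ) < 2 ^ (S * X) := by positivity
          rw [div_le_div_iff₀ (by positivity) this]
          have e1 : (2 : ℝ) ^ C₀ * 2 ^ R * (2 / 2 ^ (S * X)) * 2 ^ (S * X) = 2 ^ R * 2 ^ C₀ * 2 := by
            field_simp
          rw [e1]
          nlinarith only [show (0 : ℝ) < 2 ^ R * 2 ^ C₀ by positivity]
        rw [hva, hva, hvb, hvb, ← sub_div, ← sub_div, abs_div, abs_div, abs_of_pos hσ0]
        constructor
        · refine le_trans (div_le_div_of_nonneg_right ((hba _ (hpp e he)).2 z z' _ (by positivity)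
            hz hz' hzz) hσ0.le) g1
        · refine le_trans (div_le_div_of_nonneg_right ((hbb' _ (hpp e he)).2 z z' _ (by positivity)
            hz hz' hzz) hσ0.le) g1
      -- the count
      have hcnt : ∀ Q : Ω × (Fin k → Fin (2 ^ M)) → ℝ, IsLaw Q → (∀ e, 0 < Q e → 0 < p' e) →
          ∀ d : Fin k → ℕ, (∀ l, d l ≤ S) → CH Q D' (fun e => (V e.1, cv X y' d e)) ≤
            (Lf + k * (M * Real.log 2)) - (∑ l, (d l : ℝ)) * (X * Real.log 2) + h := by
        intro Q hQ hQs d hd
        have := hW.ext_cnt M hQ (fun e he => hpp e (hQs e he)) (fun l => d l * X) (fun l => by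
          have := Nat.mul_le_mul_right X (hd l)
          rw [hM]
          omega)
        rw [hD', hy', cv_eq_dig]
        refine this.trans (le_of_eq ?_)
        push_cast
        rw [← Finset.sum_mul]
        ring
      exact by
       have hcnt0 : ∀ (Q : Ω × (Fin k → Fin (2 ^ M)) → ℝ), IsLaw Q → (∀ e, 0 < Q e → 0 < p' e) →
           ∀ {ζ : Type} (Z : Ω × (Fin k → Fin (2 ^ M)) → ζ), CH Q D' (fun e => (Z e, V e.1)) ≤
             Lf + k * (M * Real.log 2) + h := by
         intro Q hQ hQs ζ Z
         have h1 := hcnt Q hQ hQs (fun _ => 0) fun _ => Nat.zero_le _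
         have h2 : CH Q D' (fun e => (Z e, V e.1)) ≤
             CH Q D' (fun e => (V e.1, cv X y' (fun _ => 0) e)) := by
           refine CH_mono_cond hQ.nonneg fun e e' _ _ hh => ?_
           refine Prod.ext (Prod.ext_iff.1 hh).2 ?_
           have e1 : ∀ e, cv X y' (fun _ => 0) e = fun _ => 0 := fun e => by
             rw [cv_eq_dig]
             simp only [Nat.zero_mul]
             exact dig_zero y0' y1' e
           show cv X y' (fun _ => 0) e = cv X y' (fun _ => 0) e'
           rw [e1, e1]
         simp only [Nat.cast_zero, Finset.sum_const_zero, zero_mul, sub_zero] at h1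
         linarith only [h2, h1]
       -- heights of the rows
       have hhi2 : hi + (2 * U + 2 * r + 10) * X ≤ P₁ := hhi
       have hUr : (r + 2) * X ≤ (2 * U + 2 * r + 10) * X := Nat.mul_le_mul_right _ (by omega)
       have hr1 : (r + 2) * X = r * X + 2 * X := by ring
       obtain ⟨Mh, hMh⟩ : ∃ Mh : ℝ, Mh = ((hi : ℝ) - lo) / X + 2 := ⟨_, rfl⟩
       have hlhr : (lo : ℝ) ≤ hi := by exact_mod_cast hlh
       have hMh2 : 2 ≤ Mh := by
         rw [hMh]
         have : 0 ≤ ((hi : ℝ) - lo) / X := div_nonneg (by linarith only [hlhr]) hXr.le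
         linarith only [this]
       have hL1 : ((hi : ℝ) - lo) ≤ ρ * X := by
         have e1 : hi ≤ ρ * X := by omega
         have e2 : (hi : ℝ) ≤ ρ * X := by exact_mod_cast e1
         linarith only [e2, Nat.cast_nonneg (α := ℝ) lo]
       exact by
        have hMhρ : Mh ≤ ρ + 2 := by
          rw [hMh]
          have : ((hi : ℝ) - lo) / X ≤ ρ := by rw [div_le_iff₀ hXr]; exact hL1
          linarith only [this]
        -- one event
        have hstep : ∀ F : Ω × (Fin k → Fin (2 ^ M)) → Prop, 0 < Pb p' F →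
            ∃ E' : Ω × (Fin k → Fin (2 ^ M)) → Prop, (∀ ω, E' ω → F ω) ∧ Pb p' F ≤ bb * Pb p' E' ∧
            ((hi : ℝ) - lo) * Real.log 2 ≤ CH (cond p' E' True) (fun e => ⌊(2 : ℝ) ^ hi * N e.1⌋)
              (fun e => (⌊(2 : ℝ) ^ lo * N e.1⌋, (D' e, V e.1))) +
              Cc * Mh * (((Lf + k * (M * Real.log 2)) + h -
                CH (cond p' E' True) D' (fun e => (A e.1, V e.1))) +
              ((Lf + k * (M * Real.log 2)) + h -
                CH (cond p' E' True) D' (fun e => (B e.1, V e.1)))) +
              (Cc + 2 * r + 1) * X := by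
          intro F hF
          obtain ⟨n₁, n₂, M₀, E', e1, e2, e3, e4, e5, e6, e7, e8, e9, e10⟩ :=
            hcore p' X S H P (P₀ + σ) (P₁ + σ - 2) (r * (X + 1) + h) (lo + σ) (hi + σ)
              (hi + σ + r * X + H + c + 3) (P₁ + σ) (fun _ => S) y' N' a' b' F hH1 hX1
              hS0
              (by
                have f1 : k * K * (S * X) ≤ k * K * ((2 * ρ + 6) * X) := by
                  refine Nat.mul_le_mul_left _ ?_
                  have g1 : S * X ≤ P₁ + (R + C₀ + 2) + X := by rw [← hσ]; exact hS2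
                  have g2 : (2 * ρ + 6) * X = 2 * (ρ * X) + 6 * X := by ring
                  omega
                have f2 : P₀ + σ + H + c ≤ (2 * ρ + 8) * X := by
                  have g2 : (2 * ρ + 8) * X = 2 * (ρ * X) + 8 * X := by ring
                  have g3 : P₀ ≤ P₁ := by
                    have : P₀ ≤ P₀ + (2 * U + 2 * r + 10) * X := Nat.le_add_right _ _
                    omega
                  omega
                have f3 : k * K * ((2 * ρ + 6) * X) + (2 * ρ + 8) * X =
                    (k * K * (2 * ρ + 6) + 2 * ρ + 8) * X := by ring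
                have f4 : (k * K * (2 * ρ + 6) + 2 * ρ + 8) * X ≤
                    (k * K * (2 * ρ + 6) + 2 * ρ + 8) * (H * H₀) := Nat.mul_le_mul_left _ hXH.le
                have f5 : (k * K * (2 * ρ + 6) + 2 * ρ + 8) * (H * H₀) + H = H * P := by
                  rw [hP]
                  ring
                omega)
              (by
                have f1 : r * (X + 1) = r * X + r := by ring
                have f2 : (r + 1) * X = r * X + X := by ring
                omega)
              (by omega)
              (by omega)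
              (by
                have f1 : r * (X + 1) = r * X + r := by ring
                have f2 : (2 * U + 2 * r + 10) * X = (2 * U + 2 * r + 9) * X + X := by ring
                omega)
              (by omega)
              (by omega)
              y0' y1'
              (by
                intro e _ he al
                have q1 := (hC₀ (fun α => a' e α - b' e α) 1 (by norm_num)) (fun x hx => by
                  rw [hvd, abs_div, abs_of_pos hσ0, div_le_one hσ0]
                  refine (abs_sub _ _).trans ?_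
                  have g1 := hbd e.1 (hpp e he) x hx
                  have g2 : (2 : ℝ) ^ R + 2 ^ R ≤ 2 ^ σ := by
                    rw [hσ, pow_add, pow_add]
                    have : (1 : ℝ) ≤ 2 ^ C₀ := one_le_pow₀ (by norm_num)
                    have : (0 : ℝ) < 2 ^ R := by positivity
                    nlinarith
                  linarith only [g1, g2, g1.1, g1.2])
                have q2 := q1.2.2.1 (y' e) (fun i => by
                  rw [abs_of_nonneg (y0' e i)]
                  linarith only [y1', y1' e i]) al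
                refine q2.trans ?_
                rw [mul_one]
                exact pow_le_pow_right₀ (by norm_num) (by omega))
              (by
                intro e _ he
                obtain ⟨x, hx, hx2⟩ := hfar e.1 (hpp e he)
                refine ⟨x, fun l => ?_, ?_⟩
                · rw [abs_le]
                  constructor <;> linarith [(hx l).1, (hx l).2, y0' e l, y1' e l]
                · rw [hvd, abs_div, abs_of_pos hσ0, pow_add, ← div_div]
                  exact div_le_div_of_nonneg_right hx2 hσ0.le)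
              (by
                intro e _ he x hx
                rw [hvd, abs_div, abs_of_pos hσ0]
                have g0 : ∀ l, |x l - y' e l| ≤ 1 / 2 ^ (S * X) := by
                  intro l
                  have g1 := hx l
                  have g2 := Pool.JMP.near_crn X y' S e l
                  have g3 : crn X S (cel X y' S e) l ≤ y' e l ∧
                      y' e l ≤ crn X S (cel X y' S e) l + 1 / 2 ^ (S * X) := by
                    unfold Pool.XBG.crn Pool.XBG.cel
                    have g4 := Int.floor_le ((2 : ℝ) ^ (S * X) * y' e l)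
                    have g5 := Int.lt_floor_add_one ((2 : ℝ) ^ (S * X) * y' e l)
                    have g6 : (0 : ℝ) < 2 ^ (S * X) := by positivity
                    constructor
                    · rw [div_le_iff₀ g6]
                      linarith only [g4]
                    · rw [← add_div, le_div_iff₀ g6]
                      linarith only [g5]
                  rw [abs_le]
                  constructor <;> linarith only [g1, g3, g1.1, g1.2, g3.1, g3.2]
                have hx2 : ∀ l, |x l| ≤ 2 := by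
                  intro l
                  have g1 := g0 l
                  have g2 : (1 : ℝ) / 2 ^ (S * X) ≤ 1 := by
                    rw [div_le_one (by positivity)]
                    exact one_le_pow₀ (by norm_num)
                  rw [abs_le] at g1 ⊢
                  constructor <;> linarith [g1.1, g1.2, y0' e l, y1' e l]
                have hy2 : ∀ l, |y' e l| ≤ 2 := fun l => by
                  rw [abs_of_nonneg (y0' e l)]
                  linarith only [y1', y1' e l]
                have q1 := (hba e.1 (hpp e he)).2 x (y' e) (1 / 2 ^ (S * X)) (by positivity) hx2 hy2 g0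
                have q2 := (hbb' e.1 (hpp e he)).2 x (y' e) (1 / 2 ^ (S * X)) (by positivity) hx2 hy2 g0
                have q3 := hfit e.1 (hpp e he) (y' e) (hyd e)
                have q4 : (2 : ℝ) ^ C₀ * 2 ^ R * (1 / 2 ^ (S * X)) ≤ 1 / 2 ^ P₁ := by
                  have g1 : (2 : ℝ) ^ (P₁ + σ) ≤ 2 ^ (S * X) :=
                    pow_le_pow_right₀ (by norm_num) hS1
                  rw [mul_one_div, div_le_div_iff₀ (by positivity) (by positivity), one_mul]
                  refine le_trans ?_ g1
                  rw [← pow_add, ← pow_add]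
                  exact pow_le_pow_right₀ (by norm_num) (by omega)
                have q5 : |ev (a e.1) x - ev (b e.1) x| ≤ 4 * (1 / 2 ^ P₁) := by
                  have g1 : ev (a e.1) x - ev (b e.1) x = (ev (a e.1) x - ev (a e.1) (y' e)) -
                      (ev (b e.1) x - ev (b e.1) (y' e)) - (N e.1 - ev (a e.1) (y' e)) +
                      (N e.1 - ev (b e.1) (y' e)) := by ring
                  rw [g1]
                  refine (abs_add_le _ _).trans ?_
                  have g2 := abs_sub ((ev (a e.1) x - ev (a e.1) (y' e)) -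
                      (ev (b e.1) x - ev (b e.1) (y' e))) (N e.1 - ev (a e.1) (y' e))
                  have g3 := abs_sub (ev (a e.1) x - ev (a e.1) (y' e))
                      (ev (b e.1) x - ev (b e.1) (y' e))
                  linarith only [q1, q2, q3, q4, g2, g3, q3.1, q3.2]
                refine (div_le_div_of_nonneg_right q5 hσ0.le).trans (le_of_eq ?_)
                have g1 : P₁ + σ = (P₁ + σ - 2) + 2 := by omega
                have g2 : (2 : ℝ) ^ P₁ * 2 ^ σ = 2 ^ (P₁ + σ - 2) * 4 := by
                  rw [← pow_add, g1, pow_add]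
                  norm_num
                have g3 : (0 : ℝ) < 2 ^ P₁ := by positivity
                have g4 : (0 : ℝ) < 2 ^ (P₁ + σ - 2) := by positivity
                rw [mul_one_div, div_div, g2]
                field_simp)
              (by
                intro e _ he m hm x hx
                rw [hvd, abs_div, abs_of_pos hσ0]
                -- the centre of the cell
                have hcrn0 : ∀ l, 0 ≤ crn X 1 (cel X y' 1 e) l ∧
                    crn X 1 (cel X y' 1 e) l + 1 / 2 ^ X ≤ 1 ∧
                    crn X 1 (cel X y' 1 e) l ≤ y' e l ∧ y' e l ≤ crn X 1 (cel X y' 1 e) l + 1 / 2 ^ X := by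
                  intro l
                  unfold Pool.XBG.crn Pool.XBG.cel
                  rw [one_mul]
                  have g4 := Int.floor_le ((2 : ℝ) ^ X * y' e l)
                  have g5 := Int.lt_floor_add_one ((2 : ℝ) ^ X * y' e l)
                  have g6 : (0 : ℝ) < 2 ^ X := by positivity
                  have g7 : (0 : ℤ) ≤ ⌊(2 : ℝ) ^ X * y' e l⌋ :=
                    Int.floor_nonneg.2 (mul_nonneg g6.le (y0' e l))
                  have g8 : (0 : ℝ) ≤ (⌊(2 : ℝ) ^ X * y' e l⌋ : ℝ) := by exact_mod_cast g7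
                  have g9 : (2 : ℝ) ^ X * y' e l < ((2 ^ X : ℕ) : ℤ) := by
                    push_cast
                    have := mul_lt_mul_of_pos_left (y1' e l) g6
                    rwa [mul_one] at this
                  have g10 : ⌊(2 : ℝ) ^ X * y' e l⌋ + 1 ≤ ((2 ^ X : ℕ) : ℤ) := by
                    have := Int.floor_lt.2 g9
                    omega
                  have g11 : (⌊(2 : ℝ) ^ X * y' e l⌋ : ℝ) + 1 ≤ 2 ^ X := by
                    have : ((⌊(2 : ℝ) ^ X * y' e l⌋ + 1 : ℤ) : ℝ) ≤ (((2 ^ X : ℕ) : ℤ) : ℝ) := by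
                      exact_mod_cast g10
                    push_cast at this
                    exact this
                  refine ⟨by positivity, ?_, ?_, ?_⟩
                  · rw [← add_div, div_le_one g6]
                    exact g11
                  · rw [div_le_iff₀ g6]
                    linarith only [g4]
                  · rw [← add_div, le_div_iff₀ g6]
                    linarith only [g5]
                have hhalf : (1 : ℝ) / 2 ^ (X + 1) + 1 / 2 ^ (X + 1) = 1 / 2 ^ X := by
                  rw [pow_succ]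
                  field_simp
                  norm_num
                have hpos : (0 : ℝ) < 1 / 2 ^ (X + 1) := by positivity
                have q1 := hdbl e.1 (hpp e he) (X + 1) (2 ^ σ * (1 / 2 ^ (m + (r * (X + 1) + h))))
                  (fun l => crn X 1 (cel X y' 1 e) l + 1 / 2 ^ (X + 1)) (fun l => by
                    obtain ⟨g1, g2, g3, g4⟩ := hcrn0 l
                    constructor <;> linarith) (fun l => by
                    obtain ⟨g1, g2, g3, g4⟩ := hcrn0 l
                    have g5 := hyd e l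
                    have g6 : crn X 1 (cel X y' 1 e) l + 1 / 2 ^ (X + 1) - y e.1 l =
                        (crn X 1 (cel X y' 1 e) l + 1 / 2 ^ (X + 1) - y' e l) +
                          (y' e l - y e.1 l) := by ring
                    show |crn X 1 (cel X y' 1 e) l + 1 / 2 ^ (X + 1) - y e.1 l| ≤ _
                    rw [g6]
                    refine (abs_add_le _ _).trans (add_le_add ?_ g5)
                    rw [abs_le]
                    constructor <;> linarith) (fun z hz => by
                    have g1 := hm z (fun l => by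
                      have g2 := hz l
                      show crn X 1 (cel X y' 1 e) l ≤ z l ∧
                        z l ≤ crn X 1 (cel X y' 1 e) l + 1 / 2 ^ (1 * X)
                      rw [one_mul]
                      rw [abs_le] at g2
                      constructor <;> linarith [g2.1, g2.2])
                    rw [hvd, abs_div, abs_of_pos hσ0, div_le_iff₀ hσ0] at g1
                    linarith only [g1]) x hx
                rw [div_le_iff₀ hσ0]
                refine q1.trans (le_of_eq ?_)
                rw [pow_add _ m]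
                have g1 : (0 : ℝ) < 2 ^ (r * (X + 1) + h) := by positivity
                have g2 : (0 : ℝ) < 2 ^ m := by positivity
                field_simp)
              (by
                intro e _ he z z' hz hz' hzz
                have q1 := hlip e he z z' hz hz' hzz
                have q2 : (1 : ℝ) / 2 ^ (S * X) ≤ 1 / 2 ^ (hi + σ + r * X + H + c + 3) := by
                  refine div_le_div_of_nonneg_left (by norm_num) (by positivity) ?_
                  refine pow_le_pow_right₀ (by norm_num) ?_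
                  omega
                exact ⟨q1.1.trans q2, q1.2.trans q2⟩)
              (by
                intro e _ he
                have q3 := (hfit e.1 (hpp e he) (y' e) (hyd e)).1
                have q4 : N' e - ev (a' e) (y' e) = (N e.1 - ev (a e.1) (y' e)) / 2 ^ σ := by
                  rw [hva, hN']
                  ring
                rw [q4, abs_div, abs_of_pos hσ0, pow_add, ← div_div]
                exact div_le_div_of_nonneg_right q3 hσ0.le)
              hF
          refine ⟨E', e1, by rw [hbb]; exact e3, ?_⟩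
          have hQ := isLaw_ev hpl E' e2
          have hQs : ∀ e, 0 < cond p' E' True e → 0 < p' e := fun e he => (ev_pos hpl.nonneg E' he).1
          have hdA := hcnt0 _ hQ hQs (fun e => A e.1)
          have hdB := hcnt0 _ hQ hQs (fun e => B e.1)
          obtain ⟨dA, hdA'⟩ : ∃ dA, dA = (Lf + k * (M * Real.log 2)) + h -
                CH (cond p' E' True) D' (fun e => (A e.1, V e.1)) := ⟨_, rfl⟩
          obtain ⟨dB, hdB'⟩ : ∃ dB, dB = (Lf + k * (M * Real.log 2)) + h -
                CH (cond p' E' True) D' (fun e => (B e.1, V e.1)) := ⟨_, rfl⟩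
          have dA0 : 0 ≤ dA := by rw [hdA']; linarith only [hdA]
          have dB0 : 0 ≤ dB := by rw [hdB']; linarith only [hdB]
          have hh0 : (0 : ℝ) ≤ h := Nat.cast_nonneg h
          have e11 := e10 (Q := cond p' E' True) (A := fun e => A e.1) (B := fun e => B e.1)
            (W := fun e => V e.1) (D := D') (th := dA + dB) (Lf := Lf + k * (M * Real.log 2)) hQ
            (fun e he => ⟨(ev_pos hpl.nonneg E' he).2, (ev_pos hpl.nonneg E' he).1⟩)
            (by linarith only [hdA, hdB, hdA', hdB'])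
            (fun e e' g1 g2 g3 => by
              rw [ha']
              show smu (1 / 2 ^ σ) (a e.1) = smu (1 / 2 ^ σ) (a e'.1)
              rw [hda e.1 e'.1 (hpp e (hQs e g1)) (hpp e' (hQs e' g2)) g3])
            (fun e e' g1 g2 g3 => by
              rw [hb']
              show smu (1 / 2 ^ σ) (b e.1) = smu (1 / 2 ^ σ) (b e'.1)
              rw [hdb e.1 e'.1 (hpp e (hQs e g1)) (hpp e' (hQs e' g2)) g3])
            (fun e e' g1 g2 g3 => by
              rw [hD'] at g3
              simp only [Prod.mk.injEq] at g3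
              have g4 := hW.dc e.1 e'.1 (hpp e (hQs e g1)) (hpp e' (hQs e' g2))
                (Prod.ext g3.1.1 g3.2)
              have g5 : y' e = y' e' := by
                rw [hy']
                exact uy_det g4 g3.1.2
              funext l
              show ⌊(2 : ℝ) ^ (S * X) * y' e l⌋ = ⌊(2 : ℝ) ^ (S * X) * y' e' l⌋
              rw [g5])
            (fun d hd => (hcnt _ hQ hQs d hd).trans (by
              have : (h : ℝ) ≤ H := by exact_mod_cast hHh
              linarith only [this]))
            (by rw [hdB'] at dB0 ⊢; linarith only [hdA, hdA'])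
            (by rw [hdA'] at dA0 ⊢; linarith only [hdB, hdB'])
          have e12 := e11.of (n₁ := lo + σ) (n₂ := hi + σ) (H := r * X) hQ e4
            (e5.trans (max_le (by
              have f1 : r * (X + 1) = r * X + r := by ring
              have f2 : (2 * U + 2 * r + 10) * X = (2 * U + 2 * r + 9) * X + X := by ring
              omega) (le_refl _))) e7 e8
          unfold Pool.R1.Rows at e12
          have e13 : (fun e => ⌊(2 : ℝ) ^ (hi + σ) * N' e⌋) = fun e => ⌊(2 : ℝ) ^ hi * N e.1⌋ := by
            funext e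
            rw [hN']
            exact fl_scale σ hi (N e.1)
          have e14 : (fun e => (⌊(2 : ℝ) ^ (lo + σ) * N' e⌋, (D' e, V e.1))) =
              fun e => (⌊(2 : ℝ) ^ lo * N e.1⌋, (D' e, V e.1)) := by
            funext e
            rw [hN']
            exact congrArg (fun t => (t, (D' e, V e.1))) (fl_scale σ lo (N e.1))
          rw [e13, e14] at e12
          have e15 : (((hi + σ : ℕ) : ℝ) - ((lo + σ : ℕ) : ℝ)) = (hi : ℝ) - lo := by
            push_cast
            ring
          rw [e15] at e12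
          -- the errors
          have hM₀ : (M₀ : ℝ) + 1 ≤ Mh := by
            have g1 : M₀ * X ≤ hi - lo + X := by omega
            have g2 : (M₀ : ℝ) * X ≤ ((hi : ℝ) - lo) + X := by
              have g3 : ((M₀ * X : ℕ) : ℝ) ≤ ((hi - lo + X : ℕ) : ℝ) := by exact_mod_cast g1
              push_cast at g3
              rw [Nat.cast_sub hlh] at g3
              exact g3
            rw [hMh]
            have g4 : (M₀ : ℝ) ≤ ((hi : ℝ) - lo) / X + 1 := by
              rw [← sub_le_iff_le_add, le_div_iff₀ hXr]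
              linarith only [g2]
            linarith only [g4]
          have hM₀0 : (0 : ℝ) ≤ M₀ := Nat.cast_nonneg _
          have c1 : Cc * (((M₀ : ℝ) + 1) * (dA + dB) + X) ≤ Cc * Mh * (dA + dB) + Cc * X := by
            have g1 : ((M₀ : ℝ) + 1) * (dA + dB) ≤ Mh * (dA + dB) :=
              mul_le_mul_of_nonneg_right hM₀ (by linarith only [hdA, hdB, hdA', hdB'])
            have g2 := mul_le_mul_of_nonneg_left g1 hCc
            linarith only [g2]
          have c2 : Cd * (((M₀ : ℝ) + 1) * (1 + H)) ≤ X := by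
            have g1 : ((M₀ : ℝ) + 1) * (1 + H) ≤ (ρ + 2) * (1 + H) :=
              mul_le_mul_of_nonneg_right (hM₀.trans hMhρ) (by positivity)
            have g2 : Cd * (((M₀ : ℝ) + 1) * (1 + H)) ≤ U₂ * ((ρ + 2) * (1 + H)) :=
              mul_le_mul hU₂ g1 (by positivity) (Nat.cast_nonneg _)
            have g3 : 2 * (U₂ * ((ρ + 2) * (1 + H))) ≤ 2 * X := by
              have g4 : U₂ * 2 * (ρ + 3) ≤ H₀ := by rw [hH₀]; omega
              have g5 : (1 + H) * (U₂ * 2 * (ρ + 3)) ≤ 2 * X := (Nat.mul_le_mul_left _ g4).trans hHX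
              refine le_trans ?_ g5
              have g6 : 2 * (U₂ * ((ρ + 2) * (1 + H))) = (1 + H) * (U₂ * 2 * (ρ + 2)) := by ring
              rw [g6]
              exact Nat.mul_le_mul_left _ (Nat.mul_le_mul_left _ (by omega))
            have g4 : U₂ * ((ρ + 2) * (1 + H)) ≤ X := by omega
            have g5 : (U₂ : ℝ) * ((ρ + 2) * (1 + H)) ≤ X := by exact_mod_cast g4
            linarith only [g2, g5]
          have c3 : 2 * ((r * X : ℕ) : ℝ) * Real.log 2 ≤ 2 * r * X := by
            push_cast
            have : (0 : ℝ) ≤ 2 * (r * X) := by positivity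
            nlinarith only [hl21, this]
          have c4 : (Cc + 2 * r + 1) * (X : ℝ) = Cc * X + 2 * r * X + X := by ring
          have c5 : Cc * Mh * (((Lf + k * (M * Real.log 2)) + h -
                CH (cond p' E' True) D' (fun e => (A e.1, V e.1))) +
              ((Lf + k * (M * Real.log 2)) + h -
                CH (cond p' E' True) D' (fun e => (B e.1, V e.1)))) = Cc * Mh * (dA + dB) := by
            rw [hdA', hdB']
          rw [c5, c4]
          linarith only [e12, c1, c2, c3]
        -- exhaustion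
        exact by
         have hMh0 : 0 ≤ Mh := by linarith only [hMh2]
         have hcc : 0 ≤ Cc * Mh := mul_nonneg hCc hMh0
         have hLL : 0 ≤ ((hi : ℝ) - lo) * Real.log 2 := mul_nonneg (by linarith only [hlhr]) hl2.le
         have hfin := exhaust hpl (fun e => ⌊(2 : ℝ) ^ hi * N e.1⌋)
           (fun e => (⌊(2 : ℝ) ^ lo * N e.1⌋, (D' e, V e.1))) D' (fun e => (A e.1, V e.1))
           (fun e => (B e.1, V e.1)) (L := ((hi : ℝ) - lo) * Real.log 2)
           (Lf := Lf + k * (M * Real.log 2)) (c₁ := Cc * Mh) (c₀ := (Cc + 2 * r + 1) * X) (hh := h)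
           (b := bb) hLL hcc (by positivity) hbb1
           (fun F hF => hcnt0 _ (isLaw_ev hpl F hF) (fun e he => (ev_pos hpl.nonneg F he).1) _)
           (fun F hF => hcnt0 _ (isLaw_ev hpl F hF) (fun e he => (ev_pos hpl.nonneg F he).1) _)
           hstep n (fun _ => True)
         have hrs : rs p' (fun _ => True) = p' := by
           funext e
           unfold rs
           simp
         have hPb : Pb p' (fun _ => True) = 1 := by
           unfold Pb
           simp only [if_true]
           exact hpl.sum_one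
         rw [hrs, hPb] at hfin
         simp only [mul_one] at hfin
         -- the original world
         have f1 : CH p' (fun e => ⌊(2 : ℝ) ^ hi * N e.1⌋)
             (fun e => (⌊(2 : ℝ) ^ lo * N e.1⌋, (D' e, V e.1))) ≤
             CH p (fun ω => ⌊(2 : ℝ) ^ hi * N ω⌋) (fun ω => (⌊(2 : ℝ) ^ lo * N ω⌋, (D ω, V ω))) := by
           have g1 := (pu_psh p k M).CH_eq (fun ω => ⌊(2 : ℝ) ^ hi * N ω⌋)
             (fun ω => (⌊(2 : ℝ) ^ lo * N ω⌋, (D ω, V ω)))
           rw [← g1, hp']
           refine CH_mono_cond (pu_nonneg hp) fun e e' _ _ hh => ?_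
           rw [hD'] at hh
           simp only [Prod.mk.injEq] at hh ⊢
           exact ⟨hh.1, hh.2.1.1, hh.2.2⟩
         exact by
          have f2 : Lf + k * (M * Real.log 2) - th ≤ CH p' D' (fun e => (A e.1, V e.1)) := by
            have := pu_full hp k M D (fun ω => (A ω, V ω))
            rw [hp', hD']
            linarith only [hfa, this]
          have f3 : Lf + k * (M * Real.log 2) - th ≤ CH p' D' (fun e => (B e.1, V e.1)) := by
            have := pu_full hp k M D (fun ω => (B ω, V ω))
            rw [hp', hD']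
            linarith only [hfb, this]
          have hdA0 := hcnt0 _ hpl (fun e he => he) (fun e => A e.1)
          have f4 : 0 ≤ th + h := by linarith only [f2, hdA0]
          obtain ⟨z, hz⟩ : ∃ z, z = (1 - 1 / bb) ^ n := ⟨_, rfl⟩
          have hz0 : 0 ≤ z := by
            rw [hz]
            refine pow_nonneg ?_ n
            rw [sub_nonneg, div_le_one (by linarith only [hbb1])]
            exact hbb1
          rw [← hz] at hfin hn
          have f5 : ((hi : ℝ) - lo) * Real.log 2 * z ≤ X := by
            have g1 : ((hi : ℝ) - lo) * Real.log 2 ≤ ρ * X := by nlinarith only [hL1, hl21, hlhr]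
            have g2 : z * (ρ + 1) ≤ 1 := by
              rw [lt_div_iff₀ (by positivity)] at hn
              exact hn.le
            have g3 : ((hi : ℝ) - lo) * Real.log 2 * z ≤ ρ * X * z := mul_le_mul_of_nonneg_right g1 hz0
            have g4 : (ρ : ℝ) * X * z ≤ X := by
              have g5 : (ρ : ℝ) * z ≤ 1 := by nlinarith only [hz0, g2]
              nlinarith only [hz0, g2]
            linarith only [g3, g4]
          have f6 : Cc * Mh * ((Lf + k * (M * Real.log 2) + h - CH p' D' (fun e => (A e.1, V e.1))) +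
              (Lf + k * (M * Real.log 2) + h - CH p' D' (fun e => (B e.1, V e.1))) +
              2 * n * Real.log 2) ≤ 2 * (U * (Mh * th)) + 2 * (U * (Mh * h)) +
                Cc * Mh * (2 * (n + h + 2)) := by
            have g1 : (Lf + k * (M * Real.log 2) + h - CH p' D' (fun e => (A e.1, V e.1))) +
              (Lf + k * (M * Real.log 2) + h - CH p' D' (fun e => (B e.1, V e.1))) +
              2 * n * Real.log 2 ≤ 2 * (th + h) + 2 * (n + h + 2) := by
              have : (n : ℝ) * Real.log 2 ≤ n * 1 :=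
                mul_le_mul_of_nonneg_left hl21 (Nat.cast_nonneg n)
              have : (0 : ℝ) ≤ h := Nat.cast_nonneg h
              linarith
            have g2 := mul_le_mul_of_nonneg_left g1 hcc
            have g3 : Cc * Mh * (2 * (th + h)) ≤ U * (Mh * (2 * (th + h))) := by
              rw [mul_assoc]
              exact mul_le_mul_of_nonneg_right hU (by positivity)
            have g4 : (U : ℝ) * (Mh * (2 * (th + h))) = 2 * (U * (Mh * th)) + 2 * (U * (Mh * h)) := by ring
            rw [mul_add] at g2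
            linarith only [g2, g3]
          exact by
           have f7 : 2 * (U * (Mh * h)) + Cc * Mh * (2 * (n + h + 2)) ≤ X := by
             have g1 : (U : ℝ) * (ρ + 3) * 4 * (n + h + 2) ≤ X := by exact_mod_cast x3
             have g2 : Cc * Mh * (2 * (n + h + 2)) ≤ U * (ρ + 3) * (2 * (n + h + 2)) := by
               refine mul_le_mul_of_nonneg_right ?_ (by positivity)
               exact mul_le_mul hU (by linarith only [hMhρ]) hMh0 (Nat.cast_nonneg _)
             have g3 : 2 * ((U : ℝ) * (Mh * h)) ≤ U * (ρ + 3) * (2 * (n + h + 2)) := by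
               have g4 : Mh * h ≤ (ρ + 3) * (n + h + 2) := by
                 refine mul_le_mul (by linarith only [hMhρ]) ?_ (Nat.cast_nonneg _) (by positivity)
                 linarith only [Nat.cast_nonneg (α := ℝ) n]
               have g5 := mul_le_mul_of_nonneg_left g4 (Nat.cast_nonneg (α := ℝ) U)
               linarith only [g5]
             linarith only [g1, g2, g3]
           have f8 : ((2 * U + 2 * r + 10 : ℕ) : ℝ) * (Mh * th + X) = 2 * (U * (Mh * th)) +
               (2 * r + 10) * (Mh * th) + (2 * U + 2 * r + 10) * X := by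
             push_cast
             ring
           have f9 : -(Mh * th) * (2 * r + 10) ≤ (2 * r + 10) * (Mh * h) := by
             have g1 : 0 ≤ Mh * (th + h) := mul_nonneg hMh0 f4
             have g2 : 0 ≤ (2 * (r : ℝ) + 10) * (Mh * (th + h)) := mul_nonneg (by positivity) g1
             linarith only [g2]
           have f10 : (Cc + 2 * r + 1) * (X : ℝ) ≤ (U + 2 * r + 1) * X := by
             refine mul_le_mul_of_nonneg_right (by linarith only [hU]) hXr.le
           have f11 : (2 * (r : ℝ) + 10) * (Mh * h) ≤ X := by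
             have g1 : (2 * (r : ℝ) + 10) * (ρ + 3) * (1 + h) ≤ X := by exact_mod_cast x5
             have g2 : Mh * h ≤ (ρ + 3) * (1 + h) :=
               mul_le_mul (by linarith only [hMhρ]) (by linarith only) (Nat.cast_nonneg _) (by positivity)
             have g3 := mul_le_mul_of_nonneg_left g2 (show (0 : ℝ) ≤ 2 * r + 10 by positivity)
             linarith only [g1, g3]
           have f12 : (0 : ℝ) ≤ U * X := by positivity
           rw [← hMh, f8]
           exact by
            have f13 : ((hi : ℝ) - lo) * Real.log 2 * (1 - z) = ((hi : ℝ) - lo) * Real.log 2 -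
                ((hi : ℝ) - lo) * Real.log 2 * z := by ring
            rw [f13] at hfin
            linarith only [hXr, f1, hfin, f5, f6, f7, f9, f10, f11, f12]

end Pool.JS
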