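import Pool.Agent.H51.R2.Ext

/-!
# Entropies on events without normalisation; exhaustion by popular events
-/

set_option autoImplicit false

namespace Pool.JS

open Finset Real
open Pool.Agent.H49.Ent Pool.Agent.H32.Dense Pool.STK Pool.BFL Pool.MIC

variable {Ω S T α β τ δ : Type} [Fintype Ω]

open Classical in
/-- The restriction of a law to an event. -/
noncomputable def rs (p : Ω → ℝ) (F : Ω → Prop) (ω : Ω) : ℝ := if F ω then p ω else 0

omit [Fintype Ω] in
theorem rs_nonneg {p : Ω → ℝ} (hp : ∀ ω, 0 ≤ p ω) (F : Ω → Prop) (ω : Ω) : 0 ≤ rs p F ω := by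
  unfold rs
  split_ifs
  · exact hp ω
  · exact le_rfl

theorem Pb_rs (p : Ω → ℝ) (F G : Ω → Prop) : Pb (rs p F) G = Pb p fun ω => F ω ∧ G ω := by
  classical
  unfold Pb rs
  refine Finset.sum_congr rfl fun ω _ => ?_
  by_cases h : F ω <;> by_cases h' : G ω <;> simp [h, h']

theorem cond_rs_true (p : Ω → ℝ) (F G : Ω → Prop) :
    cond (rs p F) G True = cond p (fun ω => F ω ∧ G ω) True := by
  classical
  funext ω
  unfold Pool.Agent.H49.Ent.cond
  rw [law_True, law_True, Pb_rs]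
  unfold rs
  by_cases h : F ω <;> by_cases h' : G ω <;> simp [h, h']

theorem cond_rs_false (p : Ω → ℝ) (F G : Ω → Prop) :
    cond (rs p F) G False = cond p (fun ω => F ω ∧ ¬ G ω) True := by
  classical
  funext ω
  unfold Pool.Agent.H49.Ent.cond
  rw [law_True, law_False, Pb_rs]
  unfold rs
  by_cases h : F ω <;> by_cases h' : G ω <;> simp [h, h']

theorem Pb_false (p : Ω → ℝ) : Pb p (fun _ => False) = 0 := by
  unfold Pb
  simp

theorem rs_eq {p : Ω → ℝ} (hp : ∀ ω, 0 ≤ p ω) (F : Ω → Prop) (X : Ω → S) (W : Ω → T) :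
    CH (rs p F) X W = Pb p F * CH (cond p F True) X W := by
  have h1 := CH_two (rs_nonneg hp F) X W (fun _ => True)
  have h2 : CH (rs p F) X (fun ω => (W ω, True)) = CH (rs p F) X W := by
    refine CH_congr (rs_nonneg hp F) ?_ ?_ ?_ ?_
    · exact fun ω ω' _ _ h => (Prod.ext_iff.1 h).1
    · exact fun ω ω' _ _ h => (Prod.ext_iff.1 h).1
    · exact fun ω ω' _ _ h => (Prod.ext_iff.1 h).1
    · exact fun ω ω' _ _ h => Prod.ext h rfl
  rw [h2, Pb_rs, Pb_rs, cond_rs_true, cond_rs_false] at h1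
  simp only [not_true_eq_false, and_false, and_true] at h1
  rw [Pb_false, zero_mul, add_zero] at h1
  exact h1

theorem rs_two {p : Ω → ℝ} (hp : ∀ ω, 0 ≤ p ω) (F G : Ω → Prop) (X : Ω → S) (W : Ω → T) :
    CH (rs p F) X (fun ω => (W ω, G ω)) = CH (rs p fun ω => F ω ∧ G ω) X W +
      CH (rs p fun ω => F ω ∧ ¬ G ω) X W := by
  rw [CH_two (rs_nonneg hp F) X W G, Pb_rs, Pb_rs, cond_rs_true, cond_rs_false,
    rs_eq hp (fun ω => F ω ∧ G ω), rs_eq hp (fun ω => F ω ∧ ¬ G ω)]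

theorem rs_add_le {p : Ω → ℝ} (hp : ∀ ω, 0 ≤ p ω) (F G : Ω → Prop) (X : Ω → S) (W : Ω → T) :
    CH (rs p fun ω => F ω ∧ G ω) X W + CH (rs p fun ω => F ω ∧ ¬ G ω) X W ≤
      CH (rs p F) X W := by
  rw [← rs_two hp]
  exact CH_mono_cond (rs_nonneg hp F) fun _ _ _ _ h => (Prod.ext_iff.1 h).1

theorem rs_prop_le {p : Ω → ℝ} (hp : ∀ ω, 0 ≤ p ω) (F G : Ω → Prop) (W : Ω → T) :
    CH (rs p F) G W ≤ Pb p F * Real.log 2 := by
  rw [rs_eq hp]
  rcases (Pb_nonneg hp F).eq_or_lt with h | h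
  · rw [← h, zero_mul, zero_mul]
  · refine mul_le_mul_of_nonneg_left ?_ h.le
    exact CH_prop_le (cond_nonneg hp F True)
      (sum_cond p F (by rw [law_True]; exact h.ne')) G W

theorem rs_le_add {p : Ω → ℝ} (hp : ∀ ω, 0 ≤ p ω) (F G : Ω → Prop) (X : Ω → S) (W : Ω → T) :
    CH (rs p F) X W ≤ CH (rs p fun ω => F ω ∧ G ω) X W +
      CH (rs p fun ω => F ω ∧ ¬ G ω) X W + Pb p F * Real.log 2 := by
  have h0 := rs_nonneg hp F
  have h1 := CH_le_add h0 X G W
  have h2 := rs_prop_le hp F G W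
  have h3 := CH_swc h0 X G W
  have h4 := rs_two hp F G X W
  linarith

theorem Pb_split (p : Ω → ℝ) (F G : Ω → Prop) :
    (Pb p fun ω => F ω ∧ G ω) + (Pb p fun ω => F ω ∧ ¬ G ω) = Pb p F := by
  classical
  unfold Pb
  rw [← Finset.sum_add_distrib]
  refine Finset.sum_congr rfl fun ω _ => ?_
  by_cases h : F ω <;> by_cases h' : G ω <;> simp [h, h']

theorem Pb_congr (p : Ω → ℝ) {F G : Ω → Prop} (h : ∀ ω, F ω ↔ G ω) : Pb p F = Pb p G := by
  have : F = G := funext fun ω => propext (h ω)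
  rw [this]

/-- **Exhaustion by popular events.** If each event contains a popular event on which the rows are
full up to the defects of two labels, then the rows are full up to these defects. -/
theorem exhaust {p : Ω → ℝ} (hp : IsLaw p) (X : Ω → S) (W : Ω → T) (D : Ω → δ) (A : Ω → α)
    (B : Ω → β) {L Lf c₁ c₀ hh b : ℝ} (hL : 0 ≤ L) (hc₁ : 0 ≤ c₁) (hc₀ : 0 ≤ c₀) (hb : 1 ≤ b)
    (hA : ∀ F : Ω → Prop, 0 < Pb p F → CH (cond p F True) D A ≤ Lf + hh)
    (hB : ∀ F : Ω → Prop, 0 < Pb p F → CH (cond p F True) D B ≤ Lf + hh)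
    (hE : ∀ F : Ω → Prop, 0 < Pb p F → ∃ E : Ω → Prop, (∀ ω, E ω → F ω) ∧
      Pb p F ≤ b * Pb p E ∧ L ≤ CH (cond p E True) X W +
        c₁ * ((Lf + hh - CH (cond p E True) D A) + (Lf + hh - CH (cond p E True) D B)) + c₀)
    (n : ℕ) (F : Ω → Prop) :
    L * (1 - (1 - 1 / b) ^ n) * Pb p F ≤ CH (rs p F) X W +
      c₁ * (((Lf + hh) * Pb p F - CH (rs p F) D A) + ((Lf + hh) * Pb p F - CH (rs p F) D B) +
        2 * n * (Real.log 2 * Pb p F)) + c₀ * Pb p F := by
  have h0 := hp.nonneg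
  have hl2 : 0 < Real.log 2 := Real.log_pos (by norm_num)
  have hx0 : 0 ≤ 1 - 1 / b := by
    rw [sub_nonneg, div_le_one (by linarith)]
    exact hb
  have key : ∀ {Y : Type} (Z : Ω → Y), (∀ F : Ω → Prop, 0 < Pb p F →
      CH (cond p F True) D Z ≤ Lf + hh) → ∀ F : Ω → Prop,
      0 ≤ (Lf + hh) * Pb p F - CH (rs p F) D Z := by
    intro Y Z hZ F
    rw [rs_eq h0]
    rcases (Pb_nonneg h0 F).eq_or_lt with h | h
    · rw [← h]
      simp
    · have h1 := mul_le_mul_of_nonneg_left (hZ F h) h.le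
      linarith
  induction n generalizing F with
  | zero =>
    rw [pow_zero, sub_self, mul_zero, zero_mul]
    have h1 : 0 ≤ CH (rs p F) X W := CH_nonneg (rs_nonneg h0 F) _ _
    have h2 := key A hA F
    have h3 := key B hB F
    have h4 := Pb_nonneg h0 F
    have h5 : 0 ≤ c₁ * (((Lf + hh) * Pb p F - CH (rs p F) D A) +
        ((Lf + hh) * Pb p F - CH (rs p F) D B) + 2 * ((0 : ℕ) : ℝ) * (Real.log 2 * Pb p F)) := by
      refine mul_nonneg hc₁ ?_
      push_cast
      linarith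
    have h6 : 0 ≤ c₀ * Pb p F := mul_nonneg hc₀ h4
    linarith
  | succ n ih =>
    rcases (Pb_nonneg h0 F).eq_or_lt with hF | hF
    · have h1 : 0 ≤ CH (rs p F) X W := CH_nonneg (rs_nonneg h0 F) _ _
      have h2 := key A hA F
      have h3 := key B hB F
      rw [← hF] at h2 h3 ⊢
      simp only [mul_zero, add_zero] at h2 h3 ⊢
      have h5 := mul_nonneg hc₁ (add_nonneg h2 h3)
      linarith
    obtain ⟨E, hEF, hEb, hrow⟩ := hE F hF
    have hE0 : 0 < Pb p E := by
      by_contra hcon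
      have h1 : b * Pb p E ≤ 0 := mul_nonpos_of_nonneg_of_nonpos (by linarith) (not_lt.1 hcon)
      linarith
    have hFE : (fun ω => F ω ∧ E ω) = E := by
      funext ω
      exact propext ⟨fun h => h.2, fun h => ⟨hEF ω h, h⟩⟩
    have e1 := ih (fun ω => F ω ∧ ¬ E ω)
    obtain ⟨f, hf⟩ : ∃ f, f = Pb p fun ω => F ω ∧ ¬ E ω := ⟨_, rfl⟩
    have hsplit := Pb_split p F E
    rw [hFE, ← hf] at hsplit
    have hf0 : 0 ≤ f := by rw [hf]; exact Pb_nonneg h0 _
    have a1 := rs_add_le h0 F E X W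
    have a2 := rs_le_add h0 F E D A
    have a3 := rs_le_add h0 F E D B
    rw [hFE] at a1 a2 a3
    have r1 := mul_le_mul_of_nonneg_left hrow hE0.le
    have r2 := rs_eq h0 E X W
    have r3 := rs_eq h0 E D A
    have r4 := rs_eq h0 E D B
    rw [← hf] at e1
    obtain ⟨x, hx⟩ : ∃ x, x = (1 - 1 / b) ^ n := ⟨_, rfl⟩
    have hxn : 0 ≤ x := by rw [hx]; positivity
    rw [pow_succ]
    rw [← hx] at e1 ⊢
    -- the masses
    have m1 : Pb p F * (1 / b) ≤ Pb p E := by
      rw [mul_one_div, div_le_iff₀ (by linarith)]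
      linarith
    have m2 : (1 - x * (1 - 1 / b)) * Pb p F ≤ Pb p E + (1 - x) * f := by
      have m3 : x * (Pb p F * (1 / b)) ≤ x * Pb p E := mul_le_mul_of_nonneg_left m1 hxn
      have m4 : f = Pb p F - Pb p E := by linarith
      rw [m4]
      nlinarith
    have m5 := mul_le_mul_of_nonneg_left m2 hL
    have c1 : c₁ * (((Lf + hh) * Pb p E - CH (rs p E) D A) +
        ((Lf + hh) * Pb p E - CH (rs p E) D B)) + c₁ * (((Lf + hh) * f -
        CH (rs p fun ω => F ω ∧ ¬ E ω) D A) + ((Lf + hh) * f -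
        CH (rs p fun ω => F ω ∧ ¬ E ω) D B) + 2 * n * (Real.log 2 * f)) ≤
        c₁ * (((Lf + hh) * Pb p F - CH (rs p F) D A) + ((Lf + hh) * Pb p F - CH (rs p F) D B) +
        2 * ((n + 1 : ℕ) : ℝ) * (Real.log 2 * Pb p F)) := by
      rw [← mul_add]
      refine mul_le_mul_of_nonneg_left ?_ hc₁
      push_cast
      have g1 : 2 * (n : ℝ) * (Real.log 2 * f) ≤ 2 * n * (Real.log 2 * Pb p F) := by
        refine mul_le_mul_of_nonneg_left ?_ (by positivity)
        exact mul_le_mul_of_nonneg_left (by linarith) hl2.le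
      have g2 : (Lf + hh) * Pb p E + (Lf + hh) * f = (Lf + hh) * Pb p F := by
        rw [← mul_add, hsplit]
      linarith
    have r5 : Pb p E * (CH (cond p E True) X W + c₁ * ((Lf + hh - CH (cond p E True) D A) +
        (Lf + hh - CH (cond p E True) D B)) + c₀) = CH (rs p E) X W +
        c₁ * (((Lf + hh) * Pb p E - CH (rs p E) D A) +
        ((Lf + hh) * Pb p E - CH (rs p E) D B)) + c₀ * Pb p E := by
      rw [r2, r3, r4]
      ring
    rw [r5] at r1
    have s1 : c₀ * Pb p E + c₀ * f = c₀ * Pb p F := by rw [← mul_add, hsplit]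
    have s2 : L * ((1 - x * (1 - 1 / b)) * Pb p F) = L * (1 - x * (1 - 1 / b)) * Pb p F := by ring
    have s3 : L * (Pb p E + (1 - x) * f) = Pb p E * L + L * (1 - x) * f := by ring
    rw [s2, s3] at m5
    linarith

end Pool.JS
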