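import Pool.Agent.H96.R1.Prs
import Pool.Agent.H15.KM7.Pair
import Pool.Agent.H30.MIC.Samp

/-!
# Additional digits

`Wd` is a world: a position `y` in the unit cube whose digits up to `E` are known given `D`, `V`,
and the trivial count of the values of `D`. In the extended world (`uy`, `pu`) all coordinates have
as many digits as we like, so no coordinate is exhausted.
-/

set_option autoImplicit false

namespace Pool.JS

open Finset Real
open Pool.Agent.H49.Ent Pool.Agent.H32.Dense Pool.STK Pool.BFL Pool.MIC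
open Pool.KM7 (Psh)

variable {Ω Ω' α β τ δ : Type} {k : ℕ}

/-- The digits of the position. -/
noncomputable def dig (y : Ω → Fin k → ℝ) (n : Fin k → ℕ) (ω : Ω) (l : Fin k) : ℤ :=
  ⌊(2 : ℝ) ^ n l * y ω l⌋

/-- **The world.** -/
structure Wd [Fintype Ω] (q : Ω → ℝ) (E : Fin k → ℕ) (V : Ω → τ) (D : Ω → δ)
    (y : Ω → Fin k → ℝ) (h : ℕ) (Lf : ℝ) : Prop where
  law : IsLaw q
  y0 : ∀ ω i, 0 ≤ y ω i
  y1 : ∀ ω i, y ω i < 1
  dc : Det q (fun ω => (D ω, V ω)) (dig y E)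
  cnt : ∀ q' : Ω → ℝ, IsLaw q' → (∀ ω, 0 < q' ω → 0 < q ω) → ∀ n : Fin k → ℕ,
    (∀ l, n l ≤ E l) →
    CH q' D (fun ω => (V ω, dig y n ω)) ≤ Lf - (∑ l, (n l : ℝ)) * Real.log 2 + h

theorem Wd.sub [Fintype Ω] {q q' : Ω → ℝ} {E : Fin k → ℕ} {V : Ω → τ} {D : Ω → δ}
    {y : Ω → Fin k → ℝ} {h : ℕ} {Lf : ℝ} (H : Wd q E V D y h Lf) (hq' : IsLaw q')
    (hs : ∀ ω, 0 < q' ω → 0 < q ω) : Wd q' E V D y h Lf :=
  ⟨hq', H.y0, H.y1, fun ω ω' h1 h2 h3 => H.dc ω ω' (hs ω h1) (hs ω' h2) h3,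
    fun r hr hrs => H.cnt r hr fun ω h1 => hs ω (hrs ω h1)⟩

/-- The image of a law. -/
theorem push_law [Fintype Ω] [Fintype Ω'] {P : Ω' → ℝ} (hP : IsLaw P) (pr : Ω' → Ω) :
    IsLaw (fun ω => law P pr ω) := by
  classical
  refine ⟨fun ω => law_nonneg hP.nonneg _ _, ?_⟩
  have h1 : ∀ ω, law P pr ω = ∑ e, if pr e = ω then P e else 0 := by
    intro ω
    unfold law
    refine Finset.sum_congr rfl fun e _ => ?_
    by_cases h : pr e = ω <;> simp [h]
  rw [Finset.sum_congr rfl fun ω _ => h1 ω, Finset.sum_comm]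
  rw [← hP.sum_one]
  refine Finset.sum_congr rfl fun e _ => ?_
  rw [Finset.sum_ite_eq]
  simp

theorem push_pos [Fintype Ω] [Fintype Ω'] {P : Ω' → ℝ} (pr : Ω' → Ω)
    {ω : Ω} (h : 0 < law P pr ω) : ∃ e, 0 < P e ∧ pr e = ω := by
  classical
  by_contra hcon
  push Not at hcon
  have h1 : law P pr ω ≤ 0 := by
    unfold law
    refine Finset.sum_nonpos fun e _ => ?_
    split_ifs with h2
    · by_contra h3
      exact hcon e (not_le.1 h3) h2
    · exact le_rfl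
  linarith

/-- The world of a law on a larger space. -/
theorem Wd.pull [Fintype Ω] [Fintype Ω'] {q : Ω → ℝ} {E : Fin k → ℕ} {V : Ω → τ} {D : Ω → δ}
    {y : Ω → Fin k → ℝ} {h : ℕ} {Lf : ℝ} (H : Wd q E V D y h Lf) {P : Ω' → ℝ} (hP : IsLaw P)
    (pr : Ω' → Ω) (hs : ∀ e, 0 < P e → 0 < q (pr e)) :
    Wd P E (fun e => V (pr e)) (fun e => D (pr e)) (fun e => y (pr e)) h Lf := by
  refine ⟨hP, fun e => H.y0 _, fun e => H.y1 _, fun e e' h1 h2 h3 =>
    H.dc (pr e) (pr e') (hs e h1) (hs e' h2) h3, ?_⟩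
  intro r hr hrs n hn
  have hpsh : Psh r pr (fun ω => Pool.Agent.H49.Ent.law r pr ω) := fun ω => rfl
  have h1 := H.cnt _ (push_law hr pr) (fun ω hω => by
    obtain ⟨e, he, rfl⟩ := push_pos pr hω
    exact hs e (hrs e he)) n hn
  have h2 := hpsh.CH_eq D (fun ω => (V ω, dig y n ω))
  rw [← h2] at h1
  exact h1

/-! ### The extended world -/

/-- The position with additional digits. -/
noncomputable def uy (E : Fin k → ℕ) (M : ℕ) (y : Ω → Fin k → ℝ)
    (e : Ω × (Fin k → Fin (2 ^ M))) (l : Fin k) : ℝ :=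
  (⌊(2 : ℝ) ^ E l * y e.1 l⌋ + ((e.2 l : ℕ) : ℝ) / 2 ^ M) / 2 ^ E l

/-- The law with additional independent digits. -/
noncomputable def pu (p : Ω → ℝ) (k M : ℕ) (e : Ω × (Fin k → Fin (2 ^ M))) : ℝ :=
  p e.1 / (2 ^ M) ^ k

section uy

variable {E : Fin k → ℕ} {M : ℕ} {y : Ω → Fin k → ℝ}

theorem frac_lt (u : Fin (2 ^ M)) : ((u : ℕ) : ℝ) / 2 ^ M < 1 := by
  rw [div_lt_one (by positivity)]
  exact_mod_cast u.isLt

theorem uy_mul (e : Ω × (Fin k → Fin (2 ^ M))) (l : Fin k) :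
    (2 : ℝ) ^ E l * uy E M y e l = ⌊(2 : ℝ) ^ E l * y e.1 l⌋ + ((e.2 l : ℕ) : ℝ) / 2 ^ M := by
  unfold uy
  have h : (2 : ℝ) ^ E l ≠ 0 := by positivity
  field_simp

theorem uy_fl (e : Ω × (Fin k → Fin (2 ^ M))) (l : Fin k) :
    ⌊(2 : ℝ) ^ E l * uy E M y e l⌋ = ⌊(2 : ℝ) ^ E l * y e.1 l⌋ := by
  rw [uy_mul, Int.floor_eq_iff]
  have h1 := frac_lt (M := M) (e.2 l)
  have h2 : (0 : ℝ) ≤ ((e.2 l : ℕ) : ℝ) / 2 ^ M := by positivity
  constructor <;> linarith

theorem uy_nonneg (y0 : ∀ ω i, 0 ≤ y ω i) (e : Ω × (Fin k → Fin (2 ^ M))) (l : Fin k) :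
    0 ≤ uy E M y e l := by
  unfold uy
  have h1 : (0 : ℤ) ≤ ⌊(2 : ℝ) ^ E l * y e.1 l⌋ :=
    Int.floor_nonneg.2 (mul_nonneg (by positivity) (y0 _ _))
  have h2 : (0 : ℝ) ≤ (⌊(2 : ℝ) ^ E l * y e.1 l⌋ : ℝ) := by exact_mod_cast h1
  positivity

theorem uy_lt (y1 : ∀ ω i, y ω i < 1) (e : Ω × (Fin k → Fin (2 ^ M))) (l : Fin k) :
    uy E M y e l < 1 := by
  unfold uy
  have h1 := frac_lt (M := M) (e.2 l)
  rw [div_lt_one (by positivity)]
  have h2 : (2 : ℝ) ^ E l * y e.1 l < ((2 ^ E l : ℕ) : ℤ) := by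
    push_cast
    have := mul_lt_mul_of_pos_left (y1 e.1 l) (show (0 : ℝ) < 2 ^ E l by positivity)
    rwa [mul_one] at this
  have h3 : ⌊(2 : ℝ) ^ E l * y e.1 l⌋ < ((2 ^ E l : ℕ) : ℤ) := Int.floor_lt.2 h2
  have h4 : (⌊(2 : ℝ) ^ E l * y e.1 l⌋ : ℝ) ≤ 2 ^ E l - 1 := by
    have h5 : ⌊(2 : ℝ) ^ E l * y e.1 l⌋ ≤ ((2 ^ E l : ℕ) : ℤ) - 1 := by omega
    have h6 : ((⌊(2 : ℝ) ^ E l * y e.1 l⌋ : ℤ) : ℝ) ≤ ((((2 ^ E l : ℕ) : ℤ) - 1 : ℤ) : ℝ) := by
      exact_mod_cast h5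
    push_cast at h6
    exact h6
  linarith

theorem uy_near (e : Ω × (Fin k → Fin (2 ^ M))) (l : Fin k) :
    |uy E M y e l - y e.1 l| ≤ 1 / 2 ^ E l :=
  Pool.R1.fl_close (uy_fl e l)

theorem uy_dig {n : Fin k → ℕ} (hn : ∀ l, n l ≤ E l) (e : Ω × (Fin k → Fin (2 ^ M))) :
    dig (uy E M y) n e = dig y n e.1 := by
  funext l
  exact Pool.R1.fl_nest (hn l) (uy_fl e l)

/-- The digits after the first ones. -/
theorem uy_dig_add (e : Ω × (Fin k → Fin (2 ^ M))) (l : Fin k) {j : ℕ} (hj : j ≤ M) :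
    ⌊(2 : ℝ) ^ (E l + j) * uy E M y e l⌋ =
      2 ^ j * ⌊(2 : ℝ) ^ E l * y e.1 l⌋ + (((e.2 l : ℕ) / 2 ^ (M - j) : ℕ) : ℤ) := by
  have h1 : (2 : ℝ) ^ (E l + j) * uy E M y e l = ((2 ^ j * ⌊(2 : ℝ) ^ E l * y e.1 l⌋ : ℤ) : ℝ) +
      ((e.2 l : ℕ) : ℝ) / ((2 ^ (M - j) : ℕ) : ℝ) := by
    rw [pow_add, mul_assoc, mul_comm, mul_assoc, mul_comm (uy E M y e l), uy_mul]
    have h2 : (2 : ℝ) ^ M = 2 ^ j * 2 ^ (M - j) := by rw [← pow_add, Nat.add_sub_cancel' hj]
    rw [h2]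
    push_cast
    have h3 : (2 : ℝ) ^ j ≠ 0 := by positivity
    have h4 : (2 : ℝ) ^ (M - j) ≠ 0 := by positivity
    field_simp
  rw [h1, Int.floor_intCast_add, Int.floor_div_natCast, Int.floor_natCast]
  push_cast
  rfl

/-- The digits of `D` and the additional digits fix the position. -/
theorem uy_det {e e' : Ω × (Fin k → Fin (2 ^ M))} (h1 : dig y E e.1 = dig y E e'.1)
    (h2 : e.2 = e'.2) : uy E M y e = uy E M y e' := by
  funext l
  unfold uy
  have h3 : ⌊(2 : ℝ) ^ E l * y e.1 l⌋ = ⌊(2 : ℝ) ^ E l * y e'.1 l⌋ := congrFun h1 l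
  rw [h3, h2]

end uy

section pu

variable [Fintype Ω] {p : Ω → ℝ} {M : ℕ}

theorem pu_psh (p : Ω → ℝ) (k M : ℕ) : Psh (pu p k M) Prod.fst p := by
  classical
  intro ω
  have h1 : law (pu p k M) Prod.fst ω = ∑ e : Ω × (Fin k → Fin (2 ^ M)),
      if e.1 = ω then p e.1 / (2 ^ M) ^ k else 0 := by
    unfold law pu
    refine Finset.sum_congr rfl fun e _ => ?_
    by_cases h : e.1 = ω <;> simp [h]
  rw [h1, Fintype.sum_prod_type]
  simp only
  rw [Finset.sum_eq_single ω]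
  · simp only [if_true]
    rw [Finset.sum_const, Finset.card_univ, Fintype.card_fun, Fintype.card_fin, Fintype.card_fin,
      nsmul_eq_mul]
    push_cast
    have h : ((2 : ℝ) ^ M) ^ k ≠ 0 := by positivity
    field_simp
  · intro b _ hb
    exact Finset.sum_eq_zero fun u _ => if_neg hb
  · intro h
    exact absurd (Finset.mem_univ _) h

theorem pu_nonneg (hp : IsLaw p) (e : Ω × (Fin k → Fin (2 ^ M))) : 0 ≤ pu p k M e :=
  div_nonneg (hp.nonneg _) (by positivity)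

theorem pu_law (hp : IsLaw p) (k M : ℕ) : IsLaw (pu p k M) := by
  refine ⟨pu_nonneg hp, ?_⟩
  unfold pu
  rw [Fintype.sum_prod_type]
  simp only
  rw [← hp.sum_one]
  refine Finset.sum_congr rfl fun ω _ => ?_
  rw [Finset.sum_const, Finset.card_univ, Fintype.card_fun, Fintype.card_fin, Fintype.card_fin,
      nsmul_eq_mul]
  push_cast
  have h : ((2 : ℝ) ^ M) ^ k ≠ 0 := by positivity
  field_simp

theorem pu_pos (hp : IsLaw p) {e : Ω × (Fin k → Fin (2 ^ M))} (h : 0 < pu p k M e) :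
    0 < p e.1 := (pu_psh p k M).pos (pu_nonneg hp) h

/-- The additional digits are independent. -/
theorem pu_CH (hp : IsLaw p) (k M : ℕ) :
    CH (pu p k M) Prod.snd Prod.fst = k * (M * Real.log 2) := by
  classical
  have h1 : ∀ e : Ω × (Fin k → Fin (2 ^ M)),
      law (pu p k M) (fun e => (e.2, e.1)) (e.2, e.1) = pu p k M e := by
    intro e
    unfold law
    rw [Finset.sum_eq_single e]
    · simp
    · intro b _ hb
      rw [if_neg]
      intro h
      obtain ⟨h2, h3⟩ := Prod.ext_iff.1 h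
      exact hb (Prod.ext h3 h2)
    · intro h
      exact absurd (Finset.mem_univ _) h
  have h2 : ∀ e : Ω × (Fin k → Fin (2 ^ M)), law (pu p k M) Prod.fst e.1 = p e.1 :=
    fun e => pu_psh p k M e.1
  unfold CH H
  have h3 : (-∑ e : Ω × (Fin k → Fin (2 ^ M)), pu p k M e *
      Real.log (law (pu p k M) (fun e => (e.2, e.1)) (e.2, e.1))) -
      -∑ e : Ω × (Fin k → Fin (2 ^ M)), pu p k M e *
      Real.log (law (pu p k M) Prod.fst e.1) =
      ∑ e : Ω × (Fin k → Fin (2 ^ M)), pu p k M e * (k * (M * Real.log 2)) := by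
    rw [neg_sub_neg, ← Finset.sum_sub_distrib]
    refine Finset.sum_congr rfl fun e _ => ?_
    rw [h1 e, h2 e]
    rcases (hp.nonneg e.1).eq_or_lt with h0 | h0
    · unfold pu
      rw [← h0]
      simp
    · have h4 : Real.log (pu p k M e) = Real.log (p e.1) - k * (M * Real.log 2) := by
        unfold pu
        rw [Real.log_div h0.ne' (by positivity), Real.log_pow, Real.log_pow]
      rw [h4]
      ring
  refine h3.trans ?_
  rw [← Finset.sum_mul, (pu_law hp k M).sum_one, one_mul]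

/-- The full variable with the additional digits. -/
theorem pu_full (hp : IsLaw p) (k M : ℕ) (D : Ω → δ) (Z : Ω → τ) :
    CH p D Z + k * (M * Real.log 2) ≤
      CH (pu p k M) (fun e => (D e.1, e.2)) (fun e => Z e.1) := by
  have h0 := (pu_law hp k M).nonneg
  have h1 := CH_chain h0 (fun e => e.2) (fun e => D e.1) (fun e : Ω × (Fin k → Fin (2 ^ M)) =>
    Z e.1)
  have h2 := CH_swl h0 (fun e => D e.1) (fun e : Ω × (Fin k → Fin (2 ^ M)) => e.2)
    (fun e => Z e.1)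
  have h3 := (pu_psh p k M).CH_eq D Z
  have h4 : CH (pu p k M) Prod.snd Prod.fst ≤ CH (pu p k M) (fun e => e.2)
      (fun e => (D e.1, Z e.1)) := CH_mono_cond h0 fun e e' _ _ h => by
    have h' : e.1 = e'.1 := h
    show (D e.1, Z e.1) = (D e'.1, Z e'.1)
    rw [h']
  rw [pu_CH hp] at h4
  linarith

end pu

/-- The number of values with additional digits. -/
theorem Wd.ext_cnt [Fintype Ω] {q : Ω → ℝ} {E : Fin k → ℕ} {V : Ω → τ} {D : Ω → δ}
    {y : Ω → Fin k → ℝ} {h : ℕ} {Lf : ℝ} (H : Wd q E V D y h Lf) (M : ℕ)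
    {Q : Ω × (Fin k → Fin (2 ^ M)) → ℝ} (hQ : IsLaw Q) (hs : ∀ e, 0 < Q e → 0 < q e.1)
    (n : Fin k → ℕ) (hn : ∀ l, n l ≤ E l + M) :
    CH Q (fun e => (D e.1, e.2)) (fun e => (V e.1, dig (uy E M y) n e)) ≤
      (Lf + k * (M * Real.log 2)) - (∑ l, (n l : ℝ)) * Real.log 2 + h := by
  classical
  have h0 := hQ.nonneg
  have hW := H.pull hQ Prod.fst hs
  obtain ⟨m, hm⟩ : ∃ m : Fin k → ℕ, m = fun l => min (n l) (E l) := ⟨_, rfl⟩
  obtain ⟨j, hj⟩ : ∃ j : Fin k → ℕ, j = fun l => n l - E l := ⟨_, rfl⟩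
  have hmE : ∀ l, m l ≤ E l := fun l => by rw [hm]; exact min_le_right _ _
  have hmn : ∀ l, m l ≤ n l := fun l => by rw [hm]; exact min_le_left _ _
  have hjM : ∀ l, j l ≤ M := fun l => by
    rw [hj]
    have := hn l
    show n l - E l ≤ M
    omega
  have hnj : ∀ l, (n l : ℝ) = m l + j l := fun l => by
    rw [hm, hj]
    have : n l = min (n l) (E l) + (n l - E l) := by omega
    show (n l : ℝ) = ((min (n l) (E l) : ℕ) : ℝ) + ((n l - E l : ℕ) : ℝ)
    rw [← Nat.cast_add, ← this]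
  have h1 := CH_chain h0 (fun e => e.2) (fun e => D e.1)
    (fun e : Ω × (Fin k → Fin (2 ^ M)) => (V e.1, dig (uy E M y) n e))
  have h2 := CH_swl h0 (fun e => D e.1) (fun e : Ω × (Fin k → Fin (2 ^ M)) => e.2)
    (fun e => (V e.1, dig (uy E M y) n e))
  -- the first part
  have h3 : CH Q (fun e => D e.1) (fun e => (V e.1, dig (uy E M y) n e)) ≤
      CH Q (fun e => D e.1) (fun e => (V e.1, dig (fun e => y e.1) m e)) := by
    refine CH_mono_cond h0 fun e e' _ _ hh => ?_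
    obtain ⟨g1, g2⟩ := Prod.ext_iff.1 hh
    refine Prod.ext g1 ?_
    have g3 : dig (uy E M y) m e = dig (uy E M y) m e' := by
      funext l
      exact Pool.R1.fl_nest (hmn l) (congrFun g2 l)
    rw [uy_dig hmE, uy_dig hmE] at g3
    exact g3
  have h4 := hW.cnt Q hQ (fun e he => he) m hmE
  -- the second part
  obtain ⟨R, hR⟩ : ∃ R : Ω × (Fin k → Fin (2 ^ M)) → Fin k → ℕ, R = fun e l =>
    (e.2 l : ℕ) % 2 ^ (M - j l) := ⟨_, rfl⟩
  have h5 : CH Q (fun e => e.2) (fun e => (D e.1, (V e.1, dig (uy E M y) n e))) ≤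
      CH Q R (fun e => (D e.1, (V e.1, dig (uy E M y) n e))) := by
    refine CH_mono_left h0 fun e e' he he' hh => ?_
    simp only [Prod.mk.injEq] at hh
    obtain ⟨g1, g2, g3, g4⟩ := hh
    have g5 : dig y E e.1 = dig y E e'.1 := H.dc e.1 e'.1 (hs e he) (hs e' he')
      (Prod.ext g2 g3)
    show e.2 = e'.2
    funext l
    apply Fin.ext
    have g6 : (e.2 l : ℕ) / 2 ^ (M - j l) = (e'.2 l : ℕ) / 2 ^ (M - j l) := by
      rcases Nat.lt_or_ge (E l) (n l) with hl | hl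
      · have g7 := congrFun g4 l
        have g8 : n l = E l + j l := by
          rw [hj]
          show n l = E l + (n l - E l)
          omega
        have g9 : ∀ e : Ω × (Fin k → Fin (2 ^ M)), dig (uy E M y) n e l =
            2 ^ j l * ⌊(2 : ℝ) ^ E l * y e.1 l⌋ + (((e.2 l : ℕ) / 2 ^ (M - j l) : ℕ) : ℤ) := by
          intro e
          rw [← uy_dig_add e l (hjM l), ← g8]
          rfl
        have g10 : ⌊(2 : ℝ) ^ E l * y e.1 l⌋ = ⌊(2 : ℝ) ^ E l * y e'.1 l⌋ := congrFun g5 l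
        rw [g9, g9, g10] at g7
        have g11 : (((e.2 l : ℕ) / 2 ^ (M - j l) : ℕ) : ℤ) =
            (((e'.2 l : ℕ) / 2 ^ (M - j l) : ℕ) : ℤ) := by linarith
        exact_mod_cast g11
      · have g7 : j l = 0 := by
          rw [hj]
          show n l - E l = 0
          omega
        rw [g7, Nat.sub_zero, Nat.div_eq_of_lt (e.2 l).isLt, Nat.div_eq_of_lt (e'.2 l).isLt]
    have g7 : (e.2 l : ℕ) % 2 ^ (M - j l) = (e'.2 l : ℕ) % 2 ^ (M - j l) := by
      rw [hR] at g1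
      exact congrFun g1 l
    rw [← Nat.div_add_mod (e.2 l : ℕ) (2 ^ (M - j l)), g6, g7, Nat.div_add_mod]
  have h6 : CH Q R (fun e => (D e.1, (V e.1, dig (uy E M y) n e))) ≤
      ∑ l, ((M : ℝ) - j l) * Real.log 2 := by
    refine (CH_le_card hQ.nonneg hQ.sum_one R _
      (fun _ => Fintype.piFinset fun l => Finset.range (2 ^ (M - j l)))
      fun e _ => ?_).trans (le_of_eq ?_)
    · rw [Fintype.mem_piFinset]
      intro l
      rw [hR, Finset.mem_range]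
      exact Nat.mod_lt _ (by positivity)
    · rw [Ex_const hQ.sum_one, Fintype.card_piFinset]
      simp only [Finset.card_range]
      push_cast
      rw [Real.log_prod (fun l _ => by positivity)]
      refine Finset.sum_congr rfl fun l _ => ?_
      rw [Real.log_pow, Nat.cast_sub (hjM l)]
  have h7 : ∑ l : Fin k, ((M : ℝ) - j l) * Real.log 2 =
      k * (M * Real.log 2) - (∑ l, (j l : ℝ)) * Real.log 2 := by
    rw [← Finset.sum_mul, Finset.sum_sub_distrib, Finset.sum_const, Finset.card_univ,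
      Fintype.card_fin, nsmul_eq_mul]
    ring
  have h8 : ∑ l, (n l : ℝ) = ∑ l, (m l : ℝ) + ∑ l, (j l : ℝ) := by
    rw [← Finset.sum_add_distrib]
    exact Finset.sum_congr rfl fun l _ => hnj l
  rw [h8, add_mul]
  linarith

end Pool.JS
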